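import Mathlib

set_option autoImplicit false

open Filter Topology

namespace Pool.Agent.LibH46.BBFun

noncomputable def d0 : ℝ := 1435479 / 246016
noncomputable def d1 : ℝ := 56379 / 123008
noncomputable def d2 : ℝ := 27279 / 246016
noncomputable def K : ℝ := 361143 / 61504

theorem K_pos : 0 < K := by unfold K; norm_num

/-- The quadratic density. -/
noncomputable def D (t : ℝ) : ℝ := d0 + d1 * t + d2 * t ^ 2

/-- The cubic change of variable. -/
noncomputable def X (t : ℝ) : ℝ :=
  (d0 * (t + 1) + d1 * (t ^ 2 - 1) / 2 + d2 * (t ^ 3 + 1) / 3) / (2 * K)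

theorem D_ge (t : ℝ) : 5 ≤ D t := by
  unfold D d0 d1 d2
  nlinarith [sq_nonneg (t + 2)]

theorem D_pos (t : ℝ) : 0 < D t := lt_of_lt_of_le (by norm_num) (D_ge t)

theorem hasDerivAt_X (t : ℝ) : HasDerivAt X (D t / (2 * K)) t := by
  unfold X D
  have h1 : HasDerivAt (fun t : ℝ => d0 * (t + 1)) (d0 * 1) t :=
    ((hasDerivAt_id t).add_const 1).const_mul d0
  have h2 : HasDerivAt (fun t : ℝ => d1 * (t ^ 2 - 1) / 2) (d1 * (2 * t) / 2) t := by
    have := (((hasDerivAt_pow 2 t).sub_const 1).const_mul d1).div_const 2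
    simpa using this
  have h3 : HasDerivAt (fun t : ℝ => d2 * (t ^ 3 + 1) / 3) (d2 * (3 * t ^ 2) / 3) t := by
    have := (((hasDerivAt_pow 3 t).add_const 1).const_mul d2).div_const 3
    simpa using this
  have h4 := ((h1.add h2).add h3).div_const (2 * K)
  have h5 : (d0 * 1 + d1 * (2 * t) / 2 + d2 * (3 * t ^ 2) / 3) / (2 * K)
      = (d0 + d1 * t + d2 * t ^ 2) / (2 * K) := by ring
  rw [h5] at h4
  exact h4

theorem continuous_X : Continuous X := by
  unfold X
  fun_prop

theorem strictMono_X : StrictMono X := by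
  apply strictMono_of_deriv_pos
  intro t
  rw [(hasDerivAt_X t).deriv]
  have := D_pos t
  have := K_pos
  positivity

theorem mono_aux : Monotone (fun t => X t - 5 / (2 * K) * t) := by
  have hd : ∀ t, HasDerivAt (fun t => X t - 5 / (2 * K) * t) (D t / (2 * K) - 5 / (2 * K)) t := by
    intro t
    have h := (hasDerivAt_X t).sub ((hasDerivAt_id t).const_mul (5 / (2 * K)))
    rw [mul_one] at h
    exact h
  apply monotone_of_deriv_nonneg
  · intro t
    exact (hd t).differentiableAt
  · intro t
    rw [(hd t).deriv]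
    have h1 := D_ge t
    have h2 := K_pos
    rw [← sub_div]
    apply div_nonneg (by linarith) (by linarith)

theorem surjective_X : Function.Surjective X := by
  have hc : 0 < 5 / (2 * K) := by have := K_pos; positivity
  apply continuous_X.surjective
  · apply tendsto_atTop_mono' atTop (f₁ := fun t => X 0 + 5 / (2 * K) * t)
    · filter_upwards [eventually_ge_atTop 0] with t ht
      have := mono_aux ht
      simp only [mul_zero, sub_zero] at this
      linarith
    · exact tendsto_atTop_add_const_left _ _ (tendsto_id.const_mul_atTop hc)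
  · refine tendsto_atBot_mono' atBot (f₂ := X) ?_
      (tendsto_atBot_add_const_left atBot (X 0) (tendsto_id.const_mul_atBot hc))
    filter_upwards [eventually_le_atBot 0] with t ht
    have := mono_aux ht
    simp only [mul_zero, sub_zero] at this
    simp only [id]
    linarith

theorem bij_X : Function.Bijective X := ⟨strictMono_X.injective, surjective_X⟩

/-- The inverse function. -/
noncomputable def τ : ℝ → ℝ := (Equiv.ofBijective X bij_X).symm

theorem X_τ (x : ℝ) : X (τ x) = x := (Equiv.ofBijective X bij_X).apply_symm_apply x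

theorem τ_X (t : ℝ) : τ (X t) = t := (Equiv.ofBijective X bij_X).symm_apply_apply t

theorem X_neg_one : X (-1) = 0 := by
  unfold X
  norm_num

theorem X_one : X 1 = 1 := by
  unfold X K d0 d1 d2
  norm_num

theorem τ_zero : τ 0 = -1 := by rw [← X_neg_one, τ_X]

theorem τ_one : τ 1 = 1 := by
  conv_lhs => rw [← X_one]
  rw [τ_X]

theorem strictMono_τ : StrictMono τ := by
  intro x y hxy
  rw [← strictMono_X.lt_iff_lt, X_τ, X_τ]
  exact hxy

theorem analyticAt_X (t : ℝ) : AnalyticAt ℝ X t := by
  unfold X
  fun_prop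

theorem analyticAt_τ (x : ℝ) : AnalyticAt ℝ τ x := by
  have h1 : AnalyticAt ℝ (τ ∘ X) (τ x) := by
    have : τ ∘ X = id := by
      funext t
      exact τ_X t
    rw [this]
    exact analyticAt_id
  have h2 : deriv X (τ x) ≠ 0 := by
    rw [(hasDerivAt_X _).deriv]
    have := D_pos (τ x)
    have := K_pos
    positivity
  have h3 := (analyticAt_comp_iff_of_deriv_ne_zero (analyticAt_X (τ x)) h2).mp h1
  rwa [X_τ] at h3

theorem continuous_τ : Continuous τ :=
  continuous_iff_continuousAt.mpr fun x => (analyticAt_τ x).continuousAt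

theorem hasDerivAt_τ (x : ℝ) : HasDerivAt τ (2 * K / D (τ x)) x := by
  have h1 : HasDerivAt τ (deriv τ x) x := (analyticAt_τ x).differentiableAt.hasDerivAt
  have h2 : HasDerivAt (X ∘ τ) (D (τ x) / (2 * K) * deriv τ x) x :=
    HasDerivAt.comp x (hasDerivAt_X (τ x)) h1
  have h3 : X ∘ τ = id := by
    funext t
    exact X_τ t
  rw [h3] at h2
  have h4 := h2.unique (hasDerivAt_id x)
  have h5 : deriv τ x = 2 * K / D (τ x) := by
    have := D_pos (τ x)
    have := K_pos
    field_simp at h4 ⊢
    linarith
  rw [← h5]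
  exact h1

/-- The square root of the weight. -/
noncomputable def ψ (x : ℝ) : ℝ := Real.exp (-(Real.log (D (τ x) / K) / 2))

theorem ψ_pos (x : ℝ) : 0 < ψ x := Real.exp_pos _

theorem ψ_sq (x : ℝ) : ψ x ^ 2 = K / D (τ x) := by
  unfold ψ
  have h1 := D_pos (τ x)
  have h2 := K_pos
  rw [← Real.exp_nat_mul]
  have h3 : ((2 : ℕ) : ℝ) * -(Real.log (D (τ x) / K) / 2) = -Real.log (D (τ x) / K) := by
    push_cast
    ring
  rw [h3, Real.exp_neg, Real.exp_log (by positivity), inv_div]

theorem analyticAt_D (t : ℝ) : AnalyticAt ℝ D t := by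
  unfold D
  fun_prop

theorem analyticAt_ψ (x : ℝ) : AnalyticAt ℝ ψ x := by
  unfold ψ
  have h1 : AnalyticAt ℝ (fun x => D (τ x) / K) x := by
    apply AnalyticAt.div_const
    exact (analyticAt_D (τ x)).fun_comp (analyticAt_τ x)
  have h2 : 0 < D (τ x) / K := div_pos (D_pos _) K_pos
  exact ((h1.log h2).div_const.neg).rexp

theorem continuous_ψ : Continuous ψ :=
  continuous_iff_continuousAt.mpr fun x => (analyticAt_ψ x).continuousAt

/-- Change of variable. -/
theorem change_var (G : ℝ → ℝ) (hG : Continuous G) :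
    ∫ x in (0 : ℝ)..1, G (τ x) * ψ x ^ 2 = (1 / 2) * ∫ t in (-1 : ℝ)..1, G t := by
  have h1 : ∫ x in (0 : ℝ)..1, (G ∘ τ) x * (2 * K / D (τ x)) = ∫ t in τ 0..τ 1, G t := by
    apply intervalIntegral.integral_comp_mul_deriv
    · intro x _
      exact hasDerivAt_τ x
    · apply Continuous.continuousOn
      have h2 : Continuous (fun x => D (τ x)) := by
        unfold D
        have := continuous_τ
        fun_prop
      exact continuous_const.div h2 (fun x => (D_pos _).ne')
    · exact hG
  rw [τ_zero, τ_one] at h1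
  rw [← h1, ← intervalIntegral.integral_const_mul]
  apply intervalIntegral.integral_congr
  intro x _
  simp only [Function.comp]
  rw [ψ_sq]
  ring

end Pool.Agent.LibH46.BBFun
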