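import Mathlib
import Pool.Agent.LibH46.BBFun

set_option autoImplicit false

open Filter Topology MeasureTheory
open scoped BoundedContinuousFunction

namespace Pool.Agent.LibH46.BBHilbert

/-- Lebesgue measure on the interval `(0,1)`. -/
noncomputable def μ : Measure ℝ := volume.restrict (Set.Ioo (0 : ℝ) 1)

instance : IsFiniteMeasure μ := by
  unfold μ
  infer_instance

/-- The Hilbert space `L^2((0,1), ℂ)`. -/
abbrev H : Type := Lp ℂ 2 μ

theorem memLp_cont (f : ℝ → ℂ) (hf : Continuous f) : MemLp f 2 μ := by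
  obtain ⟨C, hC⟩ := isCompact_Icc.exists_bound_of_continuousOn (s := Set.Icc (0 : ℝ) 1)
    hf.continuousOn
  apply MemLp.of_bound hf.aestronglyMeasurable C
  unfold μ
  rw [ae_restrict_iff' measurableSet_Ioo]
  filter_upwards with x hx
  exact hC x ⟨hx.1.le, hx.2.le⟩

/-- The element of the Hilbert space given by a continuous function. -/
noncomputable def el (f : ℝ → ℂ) (hf : Continuous f) : H := (memLp_cont f hf).toLp f

theorem el_coe (f : ℝ → ℂ) (hf : Continuous f) : (el f hf : ℝ → ℂ) =ᵐ[μ] f :=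
  (memLp_cont f hf).coeFn_toLp

theorem integral_μ {E : Type*} [NormedAddCommGroup E] [NormedSpace ℝ E] (f : ℝ → E) :
    ∫ x, f x ∂μ = ∫ x in (0 : ℝ)..1, f x := by
  unfold μ
  rw [intervalIntegral.integral_of_le zero_le_one, integral_Ioc_eq_integral_Ioo]

theorem inner_el (f g : ℝ → ℂ) (hf : Continuous f) (hg : Continuous g) :
    inner ℂ (el f hf) (el g hg) = ∫ x in (0 : ℝ)..1, g x * (starRingEnd ℂ) (f x) := by
  rw [L2.inner_def, ← integral_μ]
  apply integral_congr_ae
  filter_upwards [el_coe f hf, el_coe g hg] with x h1 h2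
  rw [h1, h2]
  simp

theorem norm_el_le (f : ℝ → ℂ) (hf : Continuous f) (C : ℝ) (hC : 0 ≤ C)
    (h : ∀ x ∈ Set.Ioo (0 : ℝ) 1, ‖f x‖ ≤ C) : ‖el f hf‖ ≤ C := by
  have h1 : ∀ᵐ x ∂μ, ‖(el f hf : ℝ → ℂ) x‖ ≤ C := by
    have h2 : ∀ᵐ x ∂μ, ‖f x‖ ≤ C := by
      unfold μ
      rw [ae_restrict_iff' measurableSet_Ioo]
      filter_upwards with x hx using h x hx
    filter_upwards [h2, el_coe f hf] with x h3 h4
    rw [h4]
    exact h3
  have h3 := Lp.norm_le_of_ae_bound hC h1
  have h4 : measureUnivNNReal μ = 1 := by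
    unfold measureUnivNNReal μ
    simp
  rw [h4] at h3
  simpa using h3

theorem el_sub (f g : ℝ → ℂ) (hf : Continuous f) (hg : Continuous g) :
    el f hf - el g hg = el (fun x => f x - g x) (hf.sub hg) := by
  apply Lp.ext
  refine (Lp.coeFn_sub _ _).trans ?_
  refine EventuallyEq.trans ?_ (el_coe _ _).symm
  filter_upwards [el_coe f hf, el_coe g hg] with x h1 h2
  rw [Pi.sub_apply, h1, h2]

/-- The embedding of polynomials. -/
noncomputable def Φ : Polynomial ℂ →ₗ[ℂ] H where
  toFun P := el (fun x => P.eval ((BBFun.τ x : ℝ) : ℂ) * (BBFun.ψ x : ℝ)) (by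
    have h1 := BBFun.continuous_τ
    have h2 := BBFun.continuous_ψ
    have h3 := P.continuous
    fun_prop)
  map_add' := by
    intro P Q
    apply Lp.ext
    refine (el_coe _ _).trans ?_
    refine EventuallyEq.trans ?_ (Lp.coeFn_add _ _).symm
    filter_upwards [el_coe (fun x => P.eval ((BBFun.τ x : ℝ) : ℂ) * (BBFun.ψ x : ℝ)) (by
      have h1 := BBFun.continuous_τ
      have h2 := BBFun.continuous_ψ
      have h3 := P.continuous
      fun_prop), el_coe (fun x => Q.eval ((BBFun.τ x : ℝ) : ℂ) * (BBFun.ψ x : ℝ)) (by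
      have h1 := BBFun.continuous_τ
      have h2 := BBFun.continuous_ψ
      have h3 := Q.continuous
      fun_prop)] with x h1 h2
    rw [Pi.add_apply, h1, h2]
    simp
    ring
  map_smul' := by
    intro c P
    apply Lp.ext
    refine (el_coe _ _).trans ?_
    refine EventuallyEq.trans ?_ (Lp.coeFn_smul _ _).symm
    filter_upwards [el_coe (fun x => P.eval ((BBFun.τ x : ℝ) : ℂ) * (BBFun.ψ x : ℝ)) (by
      have h1 := BBFun.continuous_τ
      have h2 := BBFun.continuous_ψ
      have h3 := P.continuous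
      fun_prop)] with x h1
    rw [Pi.smul_apply, h1]
    simp
    ring

theorem cont_fp (P : Polynomial ℂ) :
    Continuous (fun x => P.eval ((BBFun.τ x : ℝ) : ℂ) * ((BBFun.ψ x : ℝ) : ℂ)) := by
  have h1 := BBFun.continuous_τ
  have h2 := BBFun.continuous_ψ
  have h3 := P.continuous
  fun_prop

theorem Φ_eq (P : Polynomial ℂ) : Φ P = el (fun x => P.eval ((BBFun.τ x : ℝ) : ℂ) *
    ((BBFun.ψ x : ℝ) : ℂ)) (cont_fp P) := rfl

theorem Φ_coe (P : Polynomial ℂ) : (Φ P : ℝ → ℂ) =ᵐ[μ] fun x => P.eval ((BBFun.τ x : ℝ) : ℂ) *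
    ((BBFun.ψ x : ℝ) : ℂ) := by
  rw [Φ_eq]
  exact el_coe _ _

theorem change_var_c (G : ℝ → ℂ) (hG : Continuous G) :
    ∫ x in (0 : ℝ)..1, ((BBFun.ψ x ^ 2 : ℝ) : ℂ) * G (BBFun.τ x)
      = (1 / 2) * ∫ t in (-1 : ℝ)..1, G t := by
  have h1 : ∫ x in (0 : ℝ)..1, (2 * BBFun.K / BBFun.D (BBFun.τ x)) • (G ∘ BBFun.τ) x
      = ∫ t in BBFun.τ 0..BBFun.τ 1, G t := by
    apply intervalIntegral.integral_deriv_smul_comp
    · intro x _
      exact BBFun.hasDerivAt_τ x
    · apply Continuous.continuousOn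
      have h2 : Continuous (fun x => BBFun.D (BBFun.τ x)) := by
        unfold BBFun.D
        have := BBFun.continuous_τ
        fun_prop
      exact continuous_const.div h2 (fun x => (BBFun.D_pos _).ne')
    · exact hG
  rw [BBFun.τ_zero, BBFun.τ_one] at h1
  rw [← h1, ← intervalIntegral.integral_const_mul]
  apply intervalIntegral.integral_congr
  intro x _
  simp only [Function.comp]
  rw [BBFun.ψ_sq]
  simp
  ring

theorem inner_Φ (P Q : Polynomial ℂ) : inner ℂ (Φ P) (Φ Q) =
    (1 / 2) * ∫ t in (-1 : ℝ)..1, Q.eval ((t : ℝ) : ℂ) * (starRingEnd ℂ) (P.eval ((t : ℝ) : ℂ)) := by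
  rw [Φ_eq, Φ_eq, inner_el]
  rw [← change_var_c (fun t => Q.eval ((t : ℝ) : ℂ) * (starRingEnd ℂ) (P.eval ((t : ℝ) : ℂ)))]
  · apply intervalIntegral.integral_congr
    intro x _
    simp
    ring
  · have h3 := P.continuous
    have h4 := Q.continuous
    have h5 := Complex.continuous_ofReal
    exact (h4.comp h5).mul (Complex.continuous_conj.comp (h3.comp h5))

theorem Φ_injective : Function.Injective Φ := by
  rw [← LinearMap.ker_eq_bot, LinearMap.ker_eq_bot']
  intro P hP
  have h1 : (fun x => P.eval ((BBFun.τ x : ℝ) : ℂ) * ((BBFun.ψ x : ℝ) : ℂ))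
      =ᵐ[volume.restrict (Set.Ioo (0 : ℝ) 1)] fun _ => 0 := by
    have h2 := Φ_coe P
    rw [hP] at h2
    have h3 := Lp.coeFn_zero ℂ 2 μ
    exact h2.symm.trans h3
  have h2 := Measure.eqOn_open_of_ae_eq h1 isOpen_Ioo (cont_fp P).continuousOn continuousOn_const
  apply Polynomial.eq_zero_of_infinite_isRoot
  have h3 : Set.Infinite ((fun x : ℝ => ((BBFun.τ x : ℝ) : ℂ)) '' Set.Ioo (0 : ℝ) 1) := by
    apply Set.Infinite.image
    · intro x _ y _ hxy
      exact BBFun.strictMono_τ.injective (Complex.ofReal_injective hxy)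
    · exact Set.Ioo_infinite zero_lt_one
  apply h3.mono
  rintro _ ⟨x, hx, rfl⟩
  have h4 := h2 hx
  simp only at h4
  rcases mul_eq_zero.mp h4 with h5 | h5
  · exact h5
  · exact absurd (Complex.ofReal_eq_zero.mp h5) (BBFun.ψ_pos x).ne'

theorem ψ_le (x : ℝ) : BBFun.ψ x ≤ 2 := by
  have h1 := BBFun.ψ_sq x
  have h2 := BBFun.D_ge (BBFun.τ x)
  have h3 := BBFun.ψ_pos x
  have h4 : BBFun.K / BBFun.D (BBFun.τ x) ≤ 4 := by
    rw [div_le_iff₀ (BBFun.D_pos _)]
    have : BBFun.K ≤ 6 := by unfold BBFun.K; norm_num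
    linarith
  nlinarith

theorem dense_range : Dense (Set.range Φ) := by
  have h1 : DenseRange (BoundedContinuousFunction.toLp (E := ℂ) 2 μ ℂ) :=
    BoundedContinuousFunction.toLp_denseRange ℂ μ ℂ (by norm_num)
  have h2 : Set.range (BoundedContinuousFunction.toLp (E := ℂ) 2 μ ℂ) ⊆ closure (Set.range Φ) := by
    rintro _ ⟨g, rfl⟩
    rw [Metric.mem_closure_iff]
    intro ε hε
    have hc : ∀ F : ℝ → ℝ, Continuous F → ∃ p : Polynomial ℝ, ∀ x ∈ Set.Ioo (0 : ℝ) 1,
        |p.eval (BBFun.τ x) - F x / BBFun.ψ x| < ε / 8 := by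
      intro F hF
      obtain ⟨p, hp⟩ := exists_polynomial_near_of_continuousOn (-1) 1
        (fun t => F (BBFun.X t) / BBFun.ψ (BBFun.X t)) (by
          apply Continuous.continuousOn
          apply (hF.comp BBFun.continuous_X).div (BBFun.continuous_ψ.comp BBFun.continuous_X)
          intro t
          exact (BBFun.ψ_pos _).ne') (ε / 8) (by positivity)
      refine ⟨p, ?_⟩
      intro x hx
      have h3 := hp (BBFun.τ x) ⟨by
        rw [← BBFun.τ_zero]
        exact (BBFun.strictMono_τ hx.1).le, by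
        conv_rhs => rw [← BBFun.τ_one]
        exact (BBFun.strictMono_τ hx.2).le⟩
      simp only [BBFun.X_τ] at h3
      exact h3
    obtain ⟨p, hp⟩ := hc (fun x => (g x).re) (by fun_prop)
    obtain ⟨q, hq⟩ := hc (fun x => (g x).im) (by fun_prop)
    refine ⟨Φ (p.map Complex.ofRealHom + Polynomial.C Complex.I * q.map Complex.ofRealHom), ⟨_, rfl⟩, ?_⟩
    have hg : BoundedContinuousFunction.toLp (E := ℂ) 2 μ ℂ g = el g g.continuous := rfl
    rw [hg, Φ_eq, dist_eq_norm, el_sub]
    refine lt_of_le_of_lt (norm_el_le _ _ (ε / 2) (by positivity) ?_) (by linarith)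
    intro x hx
    have e1 := hp x hx
    have e2 := hq x hx
    have hψ := BBFun.ψ_pos x
    have hψ2 := ψ_le x
    have e3 : |p.eval (BBFun.τ x) * BBFun.ψ x - (g x).re| ≤ ε / 4 := by
      have : p.eval (BBFun.τ x) * BBFun.ψ x - (g x).re
          = (p.eval (BBFun.τ x) - (g x).re / BBFun.ψ x) * BBFun.ψ x := by
        field_simp
      rw [this, abs_mul, abs_of_pos hψ]
      nlinarith [abs_nonneg (p.eval (BBFun.τ x) - (g x).re / BBFun.ψ x)]
    have e4 : |q.eval (BBFun.τ x) * BBFun.ψ x - (g x).im| ≤ ε / 4 := by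
      have : q.eval (BBFun.τ x) * BBFun.ψ x - (g x).im
          = (q.eval (BBFun.τ x) - (g x).im / BBFun.ψ x) * BBFun.ψ x := by
        field_simp
      rw [this, abs_mul, abs_of_pos hψ]
      nlinarith [abs_nonneg (q.eval (BBFun.τ x) - (g x).im / BBFun.ψ x)]
    have hev : ∀ r : Polynomial ℝ, (r.map Complex.ofRealHom).eval ((BBFun.τ x : ℝ) : ℂ)
        = ((r.eval (BBFun.τ x) : ℝ) : ℂ) := by
      intro r
      rw [Polynomial.eval_map]
      exact Polynomial.eval₂_at_apply Complex.ofRealHom (BBFun.τ x)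
    rw [Polynomial.eval_add, Polynomial.eval_mul, Polynomial.eval_C, hev, hev]
    refine (Complex.norm_le_abs_re_add_abs_im _).trans ?_
    simp only [Complex.sub_re, Complex.sub_im, Complex.mul_re, Complex.mul_im, Complex.add_re,
      Complex.add_im, Complex.ofReal_re, Complex.ofReal_im, Complex.I_re, Complex.I_im]
    simp only [zero_mul, one_mul, sub_zero, mul_zero, add_zero, zero_add]
    rw [abs_sub_comm] at e3 e4
    linarith
  intro x
  have h3 := h1 x
  have h4 := closure_minimal h2 isClosed_closure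
  exact h4 h3

end Pool.Agent.LibH46.BBHilbert
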