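import Mathlib
import Pool.Agent.LibH46.BBHilbert

set_option autoImplicit false

open Filter Topology MeasureTheory Pool.Agent.LibH46.BBHilbert InnerProductSpace

namespace Pool.Agent.LibH46.BBBasis

open Polynomial in
/-- Polynomials, the first three being the normalised Legendre polynomials. -/
noncomputable def Q : ℕ → ℂ[X]
  | 0 => 1
  | 1 => C ((√3 : ℝ) : ℂ) * X
  | 2 => C (((√5 : ℝ) : ℂ) / 2) * (3 * X ^ 2 - 1)
  | (k + 3) => X ^ (k + 3)

theorem s3 : (√3 : ℝ) * √3 = 3 := Real.mul_self_sqrt (by norm_num)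
theorem s5 : (√5 : ℝ) * √5 = 5 := Real.mul_self_sqrt (by norm_num)

theorem s3ne : ((√3 : ℝ) : ℂ) ≠ 0 := by
  rw [Ne, Complex.ofReal_eq_zero]
  positivity

theorem s5ne : ((√5 : ℝ) : ℂ) / 2 ≠ 0 := by
  apply div_ne_zero _ two_ne_zero
  rw [Ne, Complex.ofReal_eq_zero]
  positivity

open Polynomial in
theorem degree_Q (i : ℕ) : (Q i).degree = i := by
  rcases i with _ | _ | _ | k
  · simp [Q]
  · simp only [Q, zero_add, Nat.cast_one]
    exact degree_C_mul_X s3ne
  · simp only [Q]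
    rw [degree_C_mul s5ne]
    have : (3 * X ^ 2 - 1 : ℂ[X]).degree = 2 := by
      compute_degree!
    rw [this]
    norm_num
  · simp [Q, add_assoc]

noncomputable def seq : Polynomial.Sequence ℂ := ⟨Q, degree_Q⟩

/-- Orthonormal system. -/
noncomputable def e : ℕ → H := gramSchmidtNormed ℂ (fun k => Φ (Q k))

theorem linInd : LinearIndependent ℂ (fun k => Φ (Q k)) := by
  have h1 : LinearIndependent ℂ Q := seq.linearIndependent
  exact h1.map' Φ (LinearMap.ker_eq_bot.mpr Φ_injective)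

theorem e_orthonormal : Orthonormal ℂ e := gramSchmidtNormed_orthonormal linInd

theorem span_Q : Submodule.span ℂ (Set.range Q) = ⊤ := by
  apply seq.span
  intro i
  rw [isUnit_iff_ne_zero, Polynomial.leadingCoeff_ne_zero]
  exact seq.ne_zero i

theorem span_e : Submodule.span ℂ (Set.range e) = LinearMap.range Φ := by
  unfold e
  rw [span_gramSchmidtNormed_range, span_gramSchmidt]
  have h1 : Set.range (fun k => Φ (Q k)) = Φ '' Set.range Q := by
    rw [← Set.range_comp]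
    rfl
  rw [h1, ← Submodule.map_span, span_Q, Submodule.map_top]

theorem quartic_integral (a b c d f : ℝ) : ∫ t in (-1 : ℝ)..1, (a + b * t + c * t ^ 2 + d * t ^ 3 + f * t ^ 4)
    = 2 * a + 2 / 3 * c + 2 / 5 * f := by
  have hd : ∀ t ∈ Set.uIcc (-1 : ℝ) 1, HasDerivAt (fun t : ℝ => a * t + b * t ^ 2 / 2 + c * t ^ 3 / 3 +
      d * t ^ 4 / 4 + f * t ^ 5 / 5) (a + b * t + c * t ^ 2 + d * t ^ 3 + f * t ^ 4) t := by
    intro t _
    have h1 := (hasDerivAt_id t).const_mul a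
    have h2 := ((hasDerivAt_pow 2 t).const_mul b).div_const 2
    have h3 := ((hasDerivAt_pow 3 t).const_mul c).div_const 3
    have h4 := ((hasDerivAt_pow 4 t).const_mul d).div_const 4
    have h5 := ((hasDerivAt_pow 5 t).const_mul f).div_const 5
    have h6 := (((h1.add h2).add h3).add h4).add h5
    have h7 : a * 1 + b * (((2 : ℕ) : ℝ) * t ^ (2 - 1)) / 2 + c * (((3 : ℕ) : ℝ) * t ^ (3 - 1)) / 3 +
      d * (((4 : ℕ) : ℝ) * t ^ (4 - 1)) / 4 + f * (((5 : ℕ) : ℝ) * t ^ (5 - 1)) / 5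
      = a + b * t + c * t ^ 2 + d * t ^ 3 + f * t ^ 4 := by
      push_cast
      ring
    rw [h7] at h6
    exact h6
  rw [intervalIntegral.integral_eq_sub_of_hasDerivAt hd (Continuous.intervalIntegrable (by fun_prop) _ _)]
  ring

theorem inner_real (P R : Polynomial ℂ) (p r : ℝ → ℝ) (hP : ∀ t : ℝ, P.eval (t : ℂ) = (p t : ℂ))
    (hR : ∀ t : ℝ, R.eval (t : ℂ) = (r t : ℂ)) (a b c d f : ℝ)
    (h : ∀ t, r t * p t = a + b * t + c * t ^ 2 + d * t ^ 3 + f * t ^ 4) :
    inner ℂ (Φ P) (Φ R) = ((a + 1 / 3 * c + 1 / 5 * f : ℝ) : ℂ) := by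
  rw [inner_Φ]
  have h1 : ∀ t : ℝ, R.eval ((t : ℝ) : ℂ) * (starRingEnd ℂ) (P.eval ((t : ℝ) : ℂ))
      = ((a + b * t + c * t ^ 2 + d * t ^ 3 + f * t ^ 4 : ℝ) : ℂ) := by
    intro t
    rw [hP, hR, Complex.conj_ofReal, ← Complex.ofReal_mul, h]
  simp_rw [h1]
  rw [intervalIntegral.integral_ofReal, quartic_integral]
  push_cast
  ring

theorem evQ0 (t : ℝ) : (Q 0).eval (t : ℂ) = ((1 : ℝ) : ℂ) := by simp [Q]
theorem evQ1 (t : ℝ) : (Q 1).eval (t : ℂ) = ((√3 * t : ℝ) : ℂ) := by simp [Q]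
theorem evQ2 (t : ℝ) : (Q 2).eval (t : ℂ) = ((√5 / 2 * (3 * t ^ 2 - 1) : ℝ) : ℂ) := by simp [Q]

theorem in00 : inner ℂ (Φ (Q 0)) (Φ (Q 0)) = (1 : ℂ) := by
  rw [inner_real (Q 0) (Q 0) _ _ evQ0 evQ0 1 0 0 0 0 (by intro t; ring)]
  norm_num

theorem in01 : inner ℂ (Φ (Q 0)) (Φ (Q 1)) = (0 : ℂ) := by
  rw [inner_real (Q 0) (Q 1) _ _ evQ0 evQ1 0 (√3) 0 0 0 (by intro t; ring)]
  norm_num

theorem in02 : inner ℂ (Φ (Q 0)) (Φ (Q 2)) = (0 : ℂ) := by
  rw [inner_real (Q 0) (Q 2) _ _ evQ0 evQ2 (-√5 / 2) 0 (3 * √5 / 2) 0 0 (by intro t; ring)]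
  rw [Complex.ofReal_eq_zero]
  ring

theorem in11 : inner ℂ (Φ (Q 1)) (Φ (Q 1)) = (1 : ℂ) := by
  rw [inner_real (Q 1) (Q 1) _ _ evQ1 evQ1 0 0 3 0 0 (by
    intro t
    linear_combination (t ^ 2) * s3)]
  norm_num

theorem in12 : inner ℂ (Φ (Q 1)) (Φ (Q 2)) = (0 : ℂ) := by
  rw [inner_real (Q 1) (Q 2) _ _ evQ1 evQ2 0 (-(√3 * √5) / 2) 0 (3 * (√3 * √5) / 2) 0 (by intro t; ring)]
  norm_num

theorem in22 : inner ℂ (Φ (Q 2)) (Φ (Q 2)) = (1 : ℂ) := by
  rw [inner_real (Q 2) (Q 2) _ _ evQ2 evQ2 (5 / 4) 0 (-30 / 4) 0 (45 / 4) (by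
    intro t
    linear_combination ((3 * t ^ 2 - 1) ^ 2 / 4) * s5)]
  norm_num

theorem norm_one_of_inner (x : H) (h : inner ℂ x x = (1 : ℂ)) : ‖x‖ = 1 := by
  have h1 := inner_self_eq_norm_sq_to_K (𝕜 := ℂ) x
  rw [h] at h1
  have h2 : ‖x‖ ^ 2 = 1 := by
    have h3 : ((‖x‖ ^ 2 : ℝ) : ℂ) = ((1 : ℝ) : ℂ) := by
      rw [Complex.ofReal_one, h1]
      norm_cast
    exact Complex.ofReal_injective h3
  nlinarith [norm_nonneg x]

theorem gs0 : gramSchmidt ℂ (fun k => Φ (Q k)) 0 = Φ (Q 0) := by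
  have := gramSchmidt_def'' ℂ (fun k => Φ (Q k)) 0
  simpa using this.symm

theorem gs1 : gramSchmidt ℂ (fun k => Φ (Q k)) 1 = Φ (Q 1) := by
  have := gramSchmidt_def'' ℂ (fun k => Φ (Q k)) 1
  have h2 : Finset.Iio 1 = ({0} : Finset ℕ) := by decide
  rw [h2, Finset.sum_singleton, gs0, in01] at this
  simpa using this.symm

theorem gs2 : gramSchmidt ℂ (fun k => Φ (Q k)) 2 = Φ (Q 2) := by
  have := gramSchmidt_def'' ℂ (fun k => Φ (Q k)) 2
  have h2 : Finset.Iio 2 = ({0, 1} : Finset ℕ) := by decide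
  rw [h2, Finset.sum_pair (by norm_num), gs0, gs1, in02, in12] at this
  simpa using this.symm

theorem e0 : e 0 = Φ (Q 0) := by
  unfold e gramSchmidtNormed
  rw [gs0, norm_one_of_inner _ in00]
  simp

theorem e1 : e 1 = Φ (Q 1) := by
  unfold e gramSchmidtNormed
  rw [gs1, norm_one_of_inner _ in11]
  simp

theorem e2 : e 2 = Φ (Q 2) := by
  unfold e gramSchmidtNormed
  rw [gs2, norm_one_of_inner _ in22]
  simp

/-- The eigenfunctions. -/
noncomputable def phi : ℕ → H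
  | 0 => ((√3 / 2 : ℝ) : ℂ) • e 0 + ((1 / 2 : ℝ) : ℂ) • e 1
  | 1 => -(((1 / 2 : ℝ) : ℂ) • e 0) + ((√3 / 2 : ℝ) : ℂ) • e 1
  | (k + 2) => e (k + 2)

theorem phi_orthonormal : Orthonormal ℂ phi := by
  rw [orthonormal_iff_ite]
  have o : ∀ i j : ℕ, inner ℂ (e i) (e j) = if i = j then (1 : ℂ) else 0 :=
    orthonormal_iff_ite.mp e_orthonormal
  have h3 : ((√3 : ℝ) : ℂ) * ((√3 : ℝ) : ℂ) = 3 := by
    rw [← Complex.ofReal_mul, s3]
    norm_num
  intro i j
  rcases i with _ | _ | i <;> rcases j with _ | _ | j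
  · simp only [phi, inner_add_left, inner_add_right, inner_smul_left, inner_smul_right, o,
      Complex.conj_ofReal]
    simp
    linear_combination (1 / 4) * h3
  · simp only [phi, inner_add_left, inner_add_right, inner_smul_left, inner_smul_right, o,
      Complex.conj_ofReal, inner_neg_right]
    simp
    ring
  · simp only [phi, inner_add_left, inner_smul_left, o]
    simp
  · simp only [phi, inner_add_left, inner_add_right, inner_smul_left, inner_smul_right, o,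
      Complex.conj_ofReal, inner_neg_left]
    simp
    ring
  · simp only [phi, inner_add_left, inner_add_right, inner_smul_left, inner_smul_right, o,
      Complex.conj_ofReal, inner_neg_left, inner_neg_right]
    simp
    linear_combination (1 / 4) * h3
  · simp only [phi, inner_add_left, inner_smul_left, inner_neg_left, o]
    simp
  · simp only [phi, inner_add_right, inner_smul_right, o]
    simp
  · simp only [phi, inner_add_right, inner_smul_right, inner_neg_right, o]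
    simp
  · simp only [phi, o]

theorem span_phi : Submodule.span ℂ (Set.range phi) = LinearMap.range Φ := by
  rw [← span_e]
  have h3 : ((√3 : ℝ) : ℂ) * ((√3 : ℝ) : ℂ) = 3 := by
    rw [← Complex.ofReal_mul, s3]
    norm_num
  apply le_antisymm
  · rw [Submodule.span_le]
    rintro _ ⟨k, rfl⟩
    have m : ∀ i, e i ∈ Submodule.span ℂ (Set.range e) := fun i => Submodule.subset_span ⟨i, rfl⟩
    rcases k with _ | _ | k
    · exact Submodule.add_mem _ (Submodule.smul_mem _ _ (m 0)) (Submodule.smul_mem _ _ (m 1))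
    · exact Submodule.add_mem _ (Submodule.neg_mem _ (Submodule.smul_mem _ _ (m 0)))
        (Submodule.smul_mem _ _ (m 1))
    · exact m _
  · rw [Submodule.span_le]
    rintro _ ⟨k, rfl⟩
    have m : ∀ i, phi i ∈ Submodule.span ℂ (Set.range phi) := fun i => Submodule.subset_span ⟨i, rfl⟩
    rcases k with _ | _ | k
    · have : e 0 = ((√3 / 2 : ℝ) : ℂ) • phi 0 - ((1 / 2 : ℝ) : ℂ) • phi 1 := by
        simp only [phi, smul_add, smul_neg, smul_smul]
        have h1 : ((√3 / 2 : ℝ) : ℂ) * ((√3 / 2 : ℝ) : ℂ) = 3 / 4 := by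
          push_cast
          linear_combination (1 / 4) * h3
        have h2 : ((√3 / 2 : ℝ) : ℂ) * ((1 / 2 : ℝ) : ℂ) = ((1 / 2 : ℝ) : ℂ) * ((√3 / 2 : ℝ) : ℂ) := by
          ring
        rw [h1, h2]
        push_cast
        module
      rw [SetLike.mem_coe]
      rw [show (0 : ℕ) = 0 from rfl, this]
      exact Submodule.sub_mem _ (Submodule.smul_mem _ _ (m 0)) (Submodule.smul_mem _ _ (m 1))
    · have : e 1 = ((1 / 2 : ℝ) : ℂ) • phi 0 + ((√3 / 2 : ℝ) : ℂ) • phi 1 := by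
        simp only [phi, smul_add, smul_neg, smul_smul]
        have h1 : ((√3 / 2 : ℝ) : ℂ) * ((√3 / 2 : ℝ) : ℂ) = 3 / 4 := by
          push_cast
          linear_combination (1 / 4) * h3
        have h2 : ((√3 / 2 : ℝ) : ℂ) * ((1 / 2 : ℝ) : ℂ) = ((1 / 2 : ℝ) : ℂ) * ((√3 / 2 : ℝ) : ℂ) := by
          ring
        rw [h1, h2]
        push_cast
        module
      rw [SetLike.mem_coe]
      rw [show (0 + 1 : ℕ) = 1 from rfl, this]
      exact Submodule.add_mem _ (Submodule.smul_mem _ _ (m 0)) (Submodule.smul_mem _ _ (m 1))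
    · exact m (k + 2)

/-- The Hilbert basis of eigenfunctions. -/
noncomputable def hb : HilbertBasis ℕ ℂ H :=
  HilbertBasis.mk phi_orthonormal (by
    rw [span_phi]
    have h := dense_range
    intro x _
    have h2 := h x
    rw [← SetLike.mem_coe, Submodule.topologicalClosure_coe, LinearMap.coe_range]
    exact h2)

theorem hb_coe (k : ℕ) : hb k = phi k := by
  unfold hb
  rw [HilbertBasis.coe_mk]

end Pool.Agent.LibH46.BBBasis
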