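import Mathlib
import Pool.Agent.LibH46.BBHilbert

set_option autoImplicit false

open Filter Topology MeasureTheory Pool.Agent.LibH46.BBHilbert

namespace Pool.Agent.LibH46.BBMul

theorem memLp_mul (a : ℝ → ℝ) (ha : AEStronglyMeasurable a μ) (hb : ∀ᵐ x ∂μ, |a x| ≤ 1) (f : H) :
    MemLp (fun x => (a x : ℂ) * (f : ℝ → ℂ) x) 2 μ := by
  apply (Lp.memLp f).mono
  · exact (Complex.continuous_ofReal.comp_aestronglyMeasurable ha).mul (Lp.aestronglyMeasurable f)
  · filter_upwards [hb] with x hx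
    rw [norm_mul, Complex.norm_real, Real.norm_eq_abs]
    nlinarith [norm_nonneg ((f : ℝ → ℂ) x)]

/-- Multiplication operator. -/
noncomputable def mulOp (a : ℝ → ℝ) (ha : AEStronglyMeasurable a μ) (hb : ∀ᵐ x ∂μ, |a x| ≤ 1) :
    H →L[ℂ] H :=
  LinearMap.mkContinuous
    { toFun := fun f => (memLp_mul a ha hb f).toLp _
      map_add' := by
        intro f g
        apply Lp.ext
        refine (MemLp.coeFn_toLp _).trans ?_
        refine EventuallyEq.trans ?_ (Lp.coeFn_add _ _).symm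
        filter_upwards [(memLp_mul a ha hb f).coeFn_toLp, (memLp_mul a ha hb g).coeFn_toLp,
          Lp.coeFn_add f g] with x h1 h2 h3
        rw [Pi.add_apply, h1, h2, h3, Pi.add_apply]
        ring
      map_smul' := by
        intro c f
        apply Lp.ext
        refine (MemLp.coeFn_toLp _).trans ?_
        refine EventuallyEq.trans ?_ (Lp.coeFn_smul _ _).symm
        filter_upwards [(memLp_mul a ha hb f).coeFn_toLp, Lp.coeFn_smul c f] with x h1 h3
        rw [Pi.smul_apply, h1, h3, Pi.smul_apply]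
        simp
        ring } 1 (by
    intro f
    rw [one_mul]
    apply Lp.norm_le_norm_of_ae_le
    change ∀ᵐ x ∂μ, ‖((memLp_mul a ha hb f).toLp _ : ℝ → ℂ) x‖ ≤ ‖(f : ℝ → ℂ) x‖
    filter_upwards [(memLp_mul a ha hb f).coeFn_toLp, hb] with x h1 h2
    rw [h1, norm_mul, Complex.norm_real, Real.norm_eq_abs]
    nlinarith [norm_nonneg ((f : ℝ → ℂ) x)])

theorem mulOp_coe (a : ℝ → ℝ) (ha : AEStronglyMeasurable a μ) (hb : ∀ᵐ x ∂μ, |a x| ≤ 1) (f : H) :
    (mulOp a ha hb f : ℝ → ℂ) =ᵐ[μ] fun x => (a x : ℂ) * (f : ℝ → ℂ) x :=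
  (memLp_mul a ha hb f).coeFn_toLp

theorem mulOp_symm (a : ℝ → ℝ) (ha : AEStronglyMeasurable a μ) (hb : ∀ᵐ x ∂μ, |a x| ≤ 1)
    (f g : H) : inner ℂ (mulOp a ha hb f) g = inner ℂ f (mulOp a ha hb g) := by
  rw [L2.inner_def, L2.inner_def]
  apply integral_congr_ae
  filter_upwards [mulOp_coe a ha hb f, mulOp_coe a ha hb g] with x h1 h2
  rw [h1, h2]
  simp
  ring

theorem inner_mulOp (a : ℝ → ℝ) (ha : AEStronglyMeasurable a μ) (hb : ∀ᵐ x ∂μ, |a x| ≤ 1)
    (f : H) : (inner ℂ f (mulOp a ha hb f)).re = ∫ x, a x * ‖(f : ℝ → ℂ) x‖ ^ 2 ∂μ := by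
  have h : inner ℂ f (mulOp a ha hb f) = ((∫ x, a x * ‖(f : ℝ → ℂ) x‖ ^ 2 ∂μ : ℝ) : ℂ) := by
    rw [L2.inner_def, ← integral_complex_ofReal]
    apply integral_congr_ae
    filter_upwards [mulOp_coe a ha hb f] with x h1
    rw [h1]
    simp only [RCLike.inner_apply, Complex.ofReal_mul, Complex.ofReal_pow]
    rw [mul_assoc, Complex.mul_conj, Complex.normSq_eq_norm_sq]
    simp
  rw [h, Complex.ofReal_re]

theorem integrable_normSq (f : H) : Integrable (fun x => ‖(f : ℝ → ℂ) x‖ ^ 2) μ := by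
  have := (Lp.memLp f).integrable_norm_rpow (by norm_num) (by norm_num)
  simpa using this

theorem norm_sq_eq (f : H) : ‖f‖ ^ 2 = ∫ x, ‖(f : ℝ → ℂ) x‖ ^ 2 ∂μ := by
  have h : inner ℂ f f = ((∫ x, ‖(f : ℝ → ℂ) x‖ ^ 2 ∂μ : ℝ) : ℂ) := by
    rw [L2.inner_def, ← integral_complex_ofReal]
    apply integral_congr_ae
    filter_upwards with x
    simp only [RCLike.inner_apply]
    rw [Complex.mul_conj, Complex.normSq_eq_norm_sq]
  have h2 : inner ℂ f f = ((‖f‖ ^ 2 : ℝ) : ℂ) := by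
    have := inner_self_eq_norm_sq_to_K (𝕜 := ℂ) f
    rw [this]
    norm_cast
  rw [h] at h2
  exact (Complex.ofReal_injective h2).symm

theorem coercive (a : ℝ → ℝ) (ha : AEStronglyMeasurable a μ) (hb : ∀ᵐ x ∂μ, |a x| ≤ 1)
    (m : ℝ) (hm : ∀ᵐ x ∂μ, m ≤ a x) (f : H) :
    m * ‖f‖ ^ 2 ≤ (inner ℂ f (mulOp a ha hb f)).re := by
  rw [inner_mulOp, norm_sq_eq, ← integral_const_mul]
  apply integral_mono_ae ((integrable_normSq f).const_mul m)
  · apply (integrable_normSq f).bdd_mul (c := 1) ha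
    filter_upwards [hb] with x hx
    exact hx
  · filter_upwards [hm] with x hx
    exact mul_le_mul_of_nonneg_right hx (by positivity)

theorem mulOp_Φ (a : ℝ → ℝ) (ha : AEStronglyMeasurable a μ) (hb : ∀ᵐ x ∂μ, |a x| ≤ 1)
    (R : Polynomial ℂ) (hR : ∀ x, R.eval ((BBFun.τ x : ℝ) : ℂ) = (a x : ℂ)) (P : Polynomial ℂ) :
    mulOp a ha hb (Φ P) = Φ (R * P) := by
  apply Lp.ext
  refine (mulOp_coe a ha hb _).trans ?_
  refine EventuallyEq.trans ?_ (Φ_coe _).symm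
  filter_upwards [Φ_coe P] with x h1
  rw [h1, Polynomial.eval_mul, hR]
  ring

end Pool.Agent.LibH46.BBMul
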