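import Mathlib

set_option autoImplicit false

open Filter Topology

namespace Pool.Agent.LibH46.DiagSemigroup

variable {H : Type*} [NormedAddCommGroup H] [InnerProductSpace ℂ H]

/-- Strongly continuous semigroups of bounded operators (indexed by nonnegative times). -/
def IsC0Semigroup (S : ℝ → H →L[ℂ] H) : Prop :=
  S 0 = ContinuousLinearMap.id ℂ H ∧
  (∀ s t : ℝ, 0 ≤ s → 0 ≤ t → S (s + t) = (S s).comp (S t)) ∧
  ∀ y : H, Tendsto (fun t : ℝ => S t y) (𝓝[>] 0) (𝓝 y)

/-- `-A` is the generator of the semigroup `S`. -/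
def IsNegGenerator (S : ℝ → H →L[ℂ] H) (A : H →ₗ.[ℂ] H) : Prop :=
  ∀ y z : H, (∃ hy : y ∈ A.domain, A ⟨y, hy⟩ = -z) ↔
    Tendsto (fun t : ℝ => ((t⁻¹ : ℝ) : ℂ) • (S t y - y)) (𝓝[>] 0) (𝓝 z)

theorem hasSum_normSq (b : HilbertBasis ℕ ℂ H) (x : H) :
    HasSum (fun k => ‖b.repr x k‖ ^ 2) (‖x‖ ^ 2) := by
  have h := lp.hasSum_norm (p := 2) (by norm_num) (b.repr x)
  simpa using h

theorem tendsto_of_coords (b : HilbertBasis ℕ ℂ H) {l : Filter ℝ} (f : ℝ → H) (z : H)
    (bound : ℕ → ℝ) (hb : Summable bound)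
    (h1 : ∀ k, Tendsto (fun t => b.repr (f t) k) l (𝓝 (b.repr z k)))
    (h2 : ∀ᶠ t in l, ∀ k, ‖b.repr (f t) k - b.repr z k‖ ^ 2 ≤ bound k) :
    Tendsto f l (𝓝 z) := by
  rw [tendsto_iff_norm_sub_tendsto_zero]
  have h3 : Tendsto (fun t => ∑' k, ‖b.repr (f t) k - b.repr z k‖ ^ 2) l
      (𝓝 (∑' _ : ℕ, (0 : ℝ))) := by
    apply tendsto_tsum_of_dominated_convergence hb
    · intro k
      have : Tendsto (fun t => ‖b.repr (f t) k - b.repr z k‖ ^ 2) l
          (𝓝 (‖b.repr z k - b.repr z k‖ ^ 2)) := ((h1 k).sub_const _).norm.pow 2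
      simpa using this
    · filter_upwards [h2] with t ht k
      rw [Real.norm_eq_abs, abs_of_nonneg (by positivity)]
      exact ht k
  have h4 : ∀ t, ‖f t - z‖ ^ 2 = ∑' k, ‖b.repr (f t) k - b.repr z k‖ ^ 2 := by
    intro t
    rw [← (hasSum_normSq b (f t - z)).tsum_eq]
    apply tsum_congr
    intro k
    rw [map_sub]
    rfl
  rw [tsum_zero] at h3
  have h5 : Tendsto (fun t => ‖f t - z‖ ^ 2) l (𝓝 0) := by
    refine h3.congr ?_
    intro t
    rw [h4]
  have h6 := h5.sqrt
  simpa using h6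

/-- Diagonal operator. -/
noncomputable def diag (b : HilbertBasis ℕ ℂ H) (c : ℕ → ℝ) (hc : ∀ k, |c k| ≤ 1) : H →L[ℂ] H :=
  (b.repr.symm.toContinuousLinearEquiv.toContinuousLinearMap).comp
    ((lp.mapCLM 2 (fun k => ((c k : ℝ) : ℂ) • ContinuousLinearMap.id ℂ ℂ) zero_le_one (by
      intro k
      refine (norm_smul_le _ _).trans ?_
      have := hc k
      simpa using this)).comp
    (b.repr.toContinuousLinearEquiv.toContinuousLinearMap))

theorem repr_diag (b : HilbertBasis ℕ ℂ H) (c : ℕ → ℝ) (hc : ∀ k, |c k| ≤ 1) (y : H) (k : ℕ) :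
    b.repr (diag b c hc y) k = c k * b.repr y k := by
  simp [diag]

/-- The diagonal semigroup. -/
noncomputable def sg (b : HilbertBasis ℕ ℂ H) (lam : ℕ → ℝ) (h0 : ∀ k, 0 ≤ lam k) (t : ℝ) :
    H →L[ℂ] H :=
  diag b (fun k => Real.exp (-(lam k * max t 0))) (by
    intro k
    rw [abs_of_pos (Real.exp_pos _)]
    apply Real.exp_le_one_iff.mpr
    have := mul_nonneg (h0 k) (le_max_right t 0)
    linarith)

theorem repr_sg (b : HilbertBasis ℕ ℂ H) (lam : ℕ → ℝ) (h0 : ∀ k, 0 ≤ lam k) (t : ℝ) (y : H)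
    (k : ℕ) : b.repr (sg b lam h0 t y) k = (Real.exp (-(lam k * max t 0)) : ℝ) * b.repr y k := by
  unfold sg
  rw [repr_diag]

theorem repr_sg' (b : HilbertBasis ℕ ℂ H) (lam : ℕ → ℝ) (h0 : ∀ k, 0 ≤ lam k) (t : ℝ)
    (ht : 0 ≤ t) (y : H)
    (k : ℕ) : b.repr (sg b lam h0 t y) k = (Real.exp (-(lam k * t)) : ℝ) * b.repr y k := by
  rw [repr_sg, max_eq_left ht]

theorem ext_repr (b : HilbertBasis ℕ ℂ H) (x y : H) (h : ∀ k, b.repr x k = b.repr y k) : x = y := by
  apply b.repr.injective
  apply lp.ext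
  funext k
  exact h k

theorem continuous_repr (b : HilbertBasis ℕ ℂ H) (k : ℕ) : Continuous (fun x : H => b.repr x k) := by
  have : (fun x : H => b.repr x k) = fun x => inner ℂ (b k) x := by
    funext x
    exact b.repr_apply_apply x k
  rw [this]
  exact continuous_const.inner continuous_id

theorem continuous_sg (b : HilbertBasis ℕ ℂ H) (lam : ℕ → ℝ) (h0 : ∀ k, 0 ≤ lam k) (y : H) :
    Continuous (fun t => sg b lam h0 t y) := by
  rw [continuous_iff_continuousAt]
  intro t₀
  apply tendsto_of_coords b _ _ (fun k => ‖b.repr y k‖ ^ 2) (hasSum_normSq b y).summable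
  · intro k
    simp only [repr_sg]
    apply Tendsto.mul_const
    apply (Complex.continuous_ofReal.tendsto _).comp
    apply Continuous.tendsto
    fun_prop
  · filter_upwards with t k
    rw [repr_sg, repr_sg, ← sub_mul, norm_mul, mul_pow, ← Complex.ofReal_sub, Complex.norm_real]
    have h1 := Real.exp_pos (-(lam k * max t 0))
    have h2 := Real.exp_pos (-(lam k * max t₀ 0))
    have h3 : Real.exp (-(lam k * max t 0)) ≤ 1 := by
      apply Real.exp_le_one_iff.mpr
      have := mul_nonneg (h0 k) (le_max_right t 0)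
      linarith
    have h4 : Real.exp (-(lam k * max t₀ 0)) ≤ 1 := by
      apply Real.exp_le_one_iff.mpr
      have := mul_nonneg (h0 k) (le_max_right t₀ 0)
      linarith
    have h5 : ‖Real.exp (-(lam k * max t 0)) - Real.exp (-(lam k * max t₀ 0))‖ ≤ 1 := by
      rw [Real.norm_eq_abs, abs_le]
      constructor <;> linarith
    have h6 : ‖Real.exp (-(lam k * max t 0)) - Real.exp (-(lam k * max t₀ 0))‖ ^ 2 ≤ 1 :=
      pow_le_one₀ (norm_nonneg _) h5
    nlinarith [sq_nonneg ‖b.repr y k‖]

theorem isC0 (b : HilbertBasis ℕ ℂ H) (lam : ℕ → ℝ) (h0 : ∀ k, 0 ≤ lam k) :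
    IsC0Semigroup (sg b lam h0) := by
  refine ⟨?_, ?_, ?_⟩
  · ext y
    apply ext_repr b
    intro k
    rw [repr_sg]
    simp
  · intro s t hs ht
    ext y
    apply ext_repr b
    intro k
    rw [repr_sg' b lam h0 _ (by linarith), ContinuousLinearMap.comp_apply, repr_sg' b lam h0 _ hs,
      repr_sg' b lam h0 _ ht, ← mul_assoc, ← Complex.ofReal_mul, ← Real.exp_add]
    congr 4
    ring
  · intro y
    have h := (continuous_sg b lam h0 y).tendsto 0
    have h1 : sg b lam h0 0 y = y := by
      apply ext_repr b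
      intro k
      rw [repr_sg]
      simp
    rw [h1] at h
    exact h.mono_left nhdsWithin_le_nhds

/-- The diagonal operator with maximal domain. -/
noncomputable def op (b : HilbertBasis ℕ ℂ H) (lam : ℕ → ℝ) : H →ₗ.[ℂ] H where
  domain :=
    { carrier := {y | Memℓp (fun k => (lam k : ℂ) * b.repr y k) 2}
      add_mem' := by
        intro x y hx hy
        have : (fun k => (lam k : ℂ) * b.repr (x + y) k)
            = (fun k => (lam k : ℂ) * b.repr x k) + fun k => (lam k : ℂ) * b.repr y k := by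
          funext k
          simp [mul_add]
        simp only [Set.mem_ofPred_eq] at hx hy ⊢
        rw [this]
        exact hx.add hy
      zero_mem' := by
        have : (fun k => (lam k : ℂ) * b.repr (0 : H) k) = (0 : ℕ → ℂ) := by
          funext k
          simp
        simp only [Set.mem_ofPred_eq]
        rw [this]
        exact zero_memℓp
      smul_mem' := by
        intro c x hx
        have : (fun k => (lam k : ℂ) * b.repr (c • x) k)
            = c • (fun k => (lam k : ℂ) * b.repr x k) := by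
          funext k
          simp
          ring
        simp only [Set.mem_ofPred_eq] at hx ⊢
        rw [this]
        exact hx.const_smul c }
  toFun :=
    { toFun := fun y => b.repr.symm ⟨fun k => (lam k : ℂ) * b.repr y k, y.2⟩
      map_add' := by
        intro x y
        apply ext_repr b
        intro k
        simp [mul_add]
      map_smul' := by
        intro c x
        apply ext_repr b
        intro k
        simp
        ring }

theorem repr_op (b : HilbertBasis ℕ ℂ H) (lam : ℕ → ℝ) (y : (op b lam).domain) (k : ℕ) :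
    b.repr (op b lam y) k = lam k * b.repr (y : H) k := by
  change b.repr (b.repr.symm ⟨fun k => (lam k : ℂ) * b.repr (y : H) k, y.2⟩) k = _
  rw [LinearIsometryEquiv.apply_symm_apply]

theorem mem_domain (b : HilbertBasis ℕ ℂ H) (lam : ℕ → ℝ) (y : H) :
    y ∈ (op b lam).domain ↔ Memℓp (fun k => (lam k : ℂ) * b.repr y k) 2 := Iff.rfl

theorem repr_basis (b : HilbertBasis ℕ ℂ H) (j k : ℕ) : b.repr (b j) k = if j = k then 1 else 0 := by
  rw [b.repr_apply_apply, orthonormal_iff_ite.mp b.orthonormal]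
  simp only [eq_comm]

theorem basis_mem (b : HilbertBasis ℕ ℂ H) (lam : ℕ → ℝ) (j : ℕ) : b j ∈ (op b lam).domain := by
  rw [mem_domain]
  have : (fun k => (lam k : ℂ) * b.repr (b j) k) = (lam j : ℂ) • fun k => b.repr (b j) k := by
    funext k
    simp only [repr_basis, Pi.smul_apply, smul_eq_mul]
    split_ifs with h
    · rw [h]
    · simp
  rw [this]
  exact (lp.memℓp _).const_smul _

theorem op_basis (b : HilbertBasis ℕ ℂ H) (lam : ℕ → ℝ) (j : ℕ) :
    op b lam ⟨b j, basis_mem b lam j⟩ = (lam j : ℂ) • b j := by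
  apply ext_repr b
  intro k
  rw [repr_op]
  simp only [repr_basis, map_smul, lp.coeFn_smul, Pi.smul_apply, smul_eq_mul]
  split_ifs with h
  · rw [h]
  · simp

theorem dense_domain (b : HilbertBasis ℕ ℂ H) (lam : ℕ → ℝ) :
    Dense ((op b lam).domain : Set H) := by
  have h1 := b.dense_span
  have h2 : Submodule.span ℂ (Set.range b) ≤ (op b lam).domain := by
    rw [Submodule.span_le]
    rintro _ ⟨j, rfl⟩
    exact basis_mem b lam j
  have h3 : Dense (Submodule.span ℂ (Set.range b) : Set H) := by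
    rw [Submodule.dense_iff_topologicalClosure_eq_top]
    exact h1
  exact h3.mono h2

theorem isNegGenerator (b : HilbertBasis ℕ ℂ H) (lam : ℕ → ℝ) (h0 : ∀ k, 0 ≤ lam k) :
    IsNegGenerator (sg b lam h0) (op b lam) := by
  have hder : ∀ l : ℝ, Tendsto (fun t : ℝ => t⁻¹ * (Real.exp (-(l * t)) - 1)) (𝓝[>] 0) (𝓝 (-l)) := by
    intro l
    have h1 : HasDerivAt (fun t : ℝ => Real.exp (-(l * t))) (-l) 0 := by
      have h2 : HasDerivAt (fun t : ℝ => -l * t) (-l) 0 := by
        simpa using (hasDerivAt_id (0 : ℝ)).const_mul (-l)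
      have h3 := h2.exp
      simpa using h3
    have h4 := h1.tendsto_slope_zero_right
    simpa using h4
  have hcoord : ∀ (y : H) (k : ℕ), Tendsto (fun t : ℝ => b.repr (((t⁻¹ : ℝ) : ℂ) •
      (sg b lam h0 t y - y)) k) (𝓝[>] 0) (𝓝 (-(lam k : ℂ) * b.repr y k)) := by
    intro y k
    have h1 : Tendsto (fun t : ℝ => ((t⁻¹ * (Real.exp (-(lam k * t)) - 1) : ℝ) : ℂ) * b.repr y k)
        (𝓝[>] 0) (𝓝 (((-(lam k) : ℝ) : ℂ) * b.repr y k)) :=
      ((Complex.continuous_ofReal.tendsto _).comp (hder (lam k))).mul_const _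
    rw [Complex.ofReal_neg] at h1
    apply h1.congr'
    filter_upwards [self_mem_nhdsWithin] with t ht
    have ht' : (0 : ℝ) ≤ t := le_of_lt ht
    rw [map_smul, map_sub, lp.coeFn_smul, lp.coeFn_sub, Pi.smul_apply, Pi.sub_apply,
      repr_sg' b lam h0 t ht', smul_eq_mul]
    push_cast
    ring
  intro y z
  constructor
  · rintro ⟨hy, hz⟩
    have hz' : ∀ k, b.repr z k = -((lam k : ℂ) * b.repr y k) := by
      intro k
      have h1 : z = -(op b lam ⟨y, hy⟩) := by rw [hz, neg_neg]
      have h2 : b.repr z k = -(b.repr (op b lam ⟨y, hy⟩) k) := by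
        rw [h1, map_neg]
        rfl
      rw [h2, repr_op]
    have hsum : Summable (fun k => ‖(lam k : ℂ) * b.repr y k‖ ^ 2) := by
      have := (hasSum_normSq b z).summable
      apply this.congr
      intro k
      rw [hz' k, norm_neg]
    apply tendsto_of_coords b _ _ _ hsum
    · intro k
      rw [hz' k, ← neg_mul]
      exact hcoord y k
    · filter_upwards [self_mem_nhdsWithin] with t ht k
      have ht' : (0 : ℝ) < t := ht
      rw [map_smul, map_sub, lp.coeFn_smul, lp.coeFn_sub, Pi.smul_apply, Pi.sub_apply,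
        repr_sg' b lam h0 t ht'.le, smul_eq_mul, hz' k]
      have h1 : ((t⁻¹ : ℝ) : ℂ) * (((Real.exp (-(lam k * t)) : ℝ) : ℂ) * b.repr y k - b.repr y k)
          - -((lam k : ℂ) * b.repr y k)
          = ((t⁻¹ * (Real.exp (-(lam k * t)) - 1) + lam k : ℝ) : ℂ) * b.repr y k := by
        push_cast
        ring
      rw [h1, norm_mul, norm_mul, Complex.norm_real, Complex.norm_real, mul_pow, mul_pow]
      apply mul_le_mul_of_nonneg_right _ (by positivity)
      apply pow_le_pow_left₀ (norm_nonneg _)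
      have h2 : -(lam k) ≤ t⁻¹ * (Real.exp (-(lam k * t)) - 1) := by
        have h3 := Real.add_one_le_exp (-(lam k * t))
        rw [inv_mul_eq_div, le_div_iff₀ ht']
        nlinarith
      have h4 : t⁻¹ * (Real.exp (-(lam k * t)) - 1) ≤ 0 := by
        apply mul_nonpos_of_nonneg_of_nonpos (by positivity)
        have : Real.exp (-(lam k * t)) ≤ 1 := by
          apply Real.exp_le_one_iff.mpr
          have := mul_nonneg (h0 k) ht'.le
          linarith
        linarith
      rw [Real.norm_eq_abs, Real.norm_eq_abs, abs_of_nonneg (h0 k), abs_of_nonneg (by linarith)]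
      linarith
  · intro h
    have hz' : ∀ k, b.repr z k = -((lam k : ℂ) * b.repr y k) := by
      intro k
      have h1 := ((continuous_repr b k).tendsto z).comp h
      have h2 := hcoord y k
      have h3 := tendsto_nhds_unique h1 h2
      rw [h3, neg_mul]
    have hy : y ∈ (op b lam).domain := by
      rw [mem_domain]
      have : (fun k => (lam k : ℂ) * b.repr y k) = -(fun k => b.repr z k) := by
        funext k
        rw [Pi.neg_apply, hz' k, neg_neg]
      rw [this]
      exact (lp.memℓp (b.repr z)).neg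
    refine ⟨hy, ?_⟩
    apply ext_repr b
    intro k
    rw [repr_op, map_neg, lp.coeFn_neg, Pi.neg_apply, hz' k, neg_neg]

end Pool.Agent.LibH46.DiagSemigroup
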