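import Mathlib
import Pool.Agent.LibH46.DiagSemigroup

set_option autoImplicit false

open Filter Topology Pool.Agent.LibH46.DiagSemigroup

namespace Pool.Agent.LibH46.ObsLower

variable {H : Type*} [NormedAddCommGroup H] [InnerProductSpace ℂ H]

theorem form_expand (b : HilbertBasis ℕ ℂ H) (M : H →L[ℂ] H)
    (hsym : ∀ x y : H, inner ℂ (M x) y = inner ℂ x (M y)) (A00 A01 A02 A11 A12 : ℝ)
    (hM0 : M (b 0) = (A00 : ℂ) • b 0 + (A01 : ℂ) • b 1 + (A02 : ℂ) • b 2)
    (hM1 : M (b 1) = (A01 : ℂ) • b 0 + (A11 : ℂ) • b 1 + (A12 : ℂ) • b 2) (y : H) (y0 y1 y2 : ℂ)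
    (h0 : b.repr y 0 = y0) (h1 : b.repr y 1 = y1) (h2 : b.repr y 2 = y2) :
    (inner ℂ y (M y)).re = A00 * ‖y0‖ ^ 2 + A11 * ‖y1‖ ^ 2 +
      2 * A01 * (y0.re * y1.re + y0.im * y1.im) + 2 * A02 * (y0.re * y2.re + y0.im * y2.im) +
      2 * A12 * (y1.re * y2.re + y1.im * y2.im) +
      (inner ℂ (y - y0 • b 0 - y1 • b 1) (M (y - y0 • b 0 - y1 • b 1))).re := by
  rw [b.repr_apply_apply] at h0 h1 h2
  have o : ∀ i j : ℕ, inner ℂ (b i) (b j) = if i = j then (1 : ℂ) else 0 :=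
    orthonormal_iff_ite.mp b.orthonormal
  set v : H := y0 • b 0 + y1 • b 1 with hv
  set w : H := y - y0 • b 0 - y1 • b 1 with hw
  have hy : y = v + w := by rw [hv, hw]; abel
  have hMv : M v = (A00 * y0 + A01 * y1) • b 0 + (A01 * y0 + A11 * y1) • b 1 +
      (A02 * y0 + A12 * y1) • b 2 := by
    rw [hv, map_add, map_smul, map_smul, hM0, hM1]
    module
  have w0 : inner ℂ (b 0) w = 0 := by
    rw [hw, inner_sub_right, inner_sub_right, inner_smul_right, inner_smul_right, h0, o, o]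
    simp
  have w1 : inner ℂ (b 1) w = 0 := by
    rw [hw, inner_sub_right, inner_sub_right, inner_smul_right, inner_smul_right, h1, o, o]
    simp
  have w2 : inner ℂ (b 2) w = y2 := by
    rw [hw, inner_sub_right, inner_sub_right, inner_smul_right, inner_smul_right, h2, o, o]
    simp
  have w0' : inner ℂ w (b 0) = 0 := by rw [← inner_conj_symm, w0, map_zero]
  have w1' : inner ℂ w (b 1) = 0 := by rw [← inner_conj_symm, w1, map_zero]
  have w2' : inner ℂ w (b 2) = (starRingEnd ℂ) y2 := by rw [← inner_conj_symm, w2]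
  have e1 : inner ℂ w (M v) = (A02 * y0 + A12 * y1) * (starRingEnd ℂ) y2 := by
    rw [hMv, inner_add_right, inner_add_right, inner_smul_right, inner_smul_right,
      inner_smul_right, w0', w1', w2']
    simp
  have e2 : inner ℂ v (M w) = (starRingEnd ℂ) ((A02 * y0 + A12 * y1) * (starRingEnd ℂ) y2) := by
    rw [← e1, inner_conj_symm, hsym]
  have e3 : inner ℂ v (M v) = (A00 * y0 + A01 * y1) * (starRingEnd ℂ) y0 +
      (A01 * y0 + A11 * y1) * (starRingEnd ℂ) y1 := by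
    rw [hMv, hv]
    simp only [inner_add_right, inner_add_left, inner_smul_right, inner_smul_left, o]
    simp
  have e4 : inner ℂ y (M y) = inner ℂ v (M v) + inner ℂ v (M w) + inner ℂ w (M v) +
      inner ℂ w (M w) := by
    conv_lhs => rw [hy]
    rw [map_add, inner_add_right, inner_add_left v w (M v), inner_add_left v w (M w)]
    ring
  rw [e4, e1, e2, e3]
  rw [← Complex.normSq_eq_norm_sq, ← Complex.normSq_eq_norm_sq, Complex.normSq_apply,
    Complex.normSq_apply]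
  simp
  ring

/-- Lower bound for the norm of the tail. -/
theorem tail_bound (b : HilbertBasis ℕ ℂ H) (lam : ℕ → ℝ) (hmono : Monotone lam) (u : ℝ)
    (hu : 0 ≤ u) (y z : H) (hyz : ∀ k, b.repr y k = (Real.exp (lam k * u) : ℝ) * b.repr z k) :
    Real.exp (2 * lam 2 * u) * ‖b.repr z 2‖ ^ 2 + Real.exp (2 * lam 3 * u) *
      (‖z‖ ^ 2 - ‖b.repr z 0‖ ^ 2 - ‖b.repr z 1‖ ^ 2 - ‖b.repr z 2‖ ^ 2) ≤
      ‖y - b.repr y 0 • b 0 - b.repr y 1 • b 1‖ ^ 2 := by
  set w : H := y - b.repr y 0 • b 0 - b.repr y 1 • b 1 with hw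
  have hwk : ∀ k, b.repr w k = if k = 0 then 0 else if k = 1 then 0 else b.repr y k := by
    intro k
    rw [hw, map_sub, map_sub, map_smul, map_smul]
    simp only [lp.coeFn_sub, lp.coeFn_smul, Pi.sub_apply, Pi.smul_apply, repr_basis, smul_eq_mul]
    rcases k with _ | _ | k
    · simp
    · simp
    · simp
  have s1 := hasSum_normSq b w
  have s2 := (hasSum_normSq b z).mul_left (Real.exp (2 * lam 3 * u))
  have s3 : HasSum (fun k => if k = 0 then -(Real.exp (2 * lam 3 * u) * ‖b.repr z 0‖ ^ 2) else 0)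
      (-(Real.exp (2 * lam 3 * u) * ‖b.repr z 0‖ ^ 2)) := hasSum_ite_eq 0 _
  have s4 : HasSum (fun k => if k = 1 then -(Real.exp (2 * lam 3 * u) * ‖b.repr z 1‖ ^ 2) else 0)
      (-(Real.exp (2 * lam 3 * u) * ‖b.repr z 1‖ ^ 2)) := hasSum_ite_eq 1 _
  have s5 : HasSum (fun k => if k = 2 then
      (Real.exp (2 * lam 2 * u) - Real.exp (2 * lam 3 * u)) * ‖b.repr z 2‖ ^ 2 else 0)
      ((Real.exp (2 * lam 2 * u) - Real.exp (2 * lam 3 * u)) * ‖b.repr z 2‖ ^ 2) := hasSum_ite_eq 2 _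
  have s6 := ((s2.add s3).add s4).add s5
  have s7 := hasSum_le (f := _) (g := _) ?_ s6 s1
  · refine le_trans (le_of_eq ?_) s7
    ring
  · intro k
    simp only [hwk]
    have hE : ∀ k, ‖b.repr y k‖ ^ 2 = Real.exp (2 * lam k * u) * ‖b.repr z k‖ ^ 2 := by
      intro k
      rw [hyz, norm_mul, mul_pow, Complex.norm_real, Real.norm_eq_abs, sq_abs, ← Real.exp_nat_mul]
      congr 2
      push_cast
      ring
    rcases k with _ | _ | _ | k
    · simp
    · simp
    · simp only [Nat.reduceAdd, OfNat.ofNat_ne_zero, if_false, OfNat.ofNat_ne_one, if_true, add_zero]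
      rw [hE]
      apply le_of_eq
      ring
    · have h1 : k + 1 + 1 + 1 ≠ 0 := by omega
      have h2 : k + 1 + 1 + 1 ≠ 1 := by omega
      have h3 : k + 1 + 1 + 1 ≠ 2 := by omega
      simp only [h1, h2, h3, if_false, add_zero]
      rw [hE]
      apply mul_le_mul_of_nonneg_right _ (by positivity)
      apply Real.exp_le_exp.mpr
      apply mul_le_mul_of_nonneg_right _ hu
      have := hmono (show 3 ≤ k + 1 + 1 + 1 by omega)
      linarith

/-- The time weight. -/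
noncomputable def W (T c : ℝ) : ℝ := ∫ t in (0 : ℝ)..T, Real.exp (c * (T - t))

theorem W_eq (T c : ℝ) (hc : c ≠ 0) : W T c = (Real.exp (c * T) - 1) / c := by
  unfold W
  have hd : ∀ t ∈ Set.uIcc (0 : ℝ) T, HasDerivAt (fun t : ℝ => -(Real.exp (c * (T - t)) / c))
      (Real.exp (c * (T - t))) t := by
    intro t _
    have h1 : HasDerivAt (fun t : ℝ => c * (T - t)) (c * (-1)) t :=
      ((hasDerivAt_id t).const_sub T).const_mul c
    have h2 := (h1.exp.div_const c).neg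
    have h3 : -(Real.exp (c * (T - t)) * (c * (-1)) / c) = Real.exp (c * (T - t)) := by
      field_simp
    rw [h3] at h2
    exact h2
  rw [intervalIntegral.integral_eq_sub_of_hasDerivAt hd
    (Continuous.intervalIntegrable (by fun_prop) _ _)]
  simp
  ring

theorem normSq_parts (z : ℂ) : ‖z‖ ^ 2 = z.re ^ 2 + z.im ^ 2 := by
  rw [← Complex.normSq_eq_norm_sq, Complex.normSq_apply]
  ring

theorem lower_bound (b : HilbertBasis ℕ ℂ H) (lam : ℕ → ℝ) (h0 : ∀ k, 0 ≤ lam k)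
    (hmono : Monotone lam) (M : H →L[ℂ] H)
    (hsym : ∀ x y : H, inner ℂ (M x) y = inner ℂ x (M y)) (A00 A01 A02 A11 A12 : ℝ)
    (hM0 : M (b 0) = (A00 : ℂ) • b 0 + (A01 : ℂ) • b 1 + (A02 : ℂ) • b 2)
    (hM1 : M (b 1) = (A01 : ℂ) • b 0 + (A11 : ℂ) • b 1 + (A12 : ℂ) • b 2)
    (m : ℝ) (hm0 : 0 ≤ m) (hm : ∀ x : H, m * ‖x‖ ^ 2 ≤ (inner ℂ x (M x)).re)
    (T : ℝ) (hT : 0 ≤ T) (σ : ℝ)
    (hG : ∀ p q r : ℝ, σ * (p ^ 2 + q ^ 2 + r ^ 2) ≤ A00 * W T (2 * lam 0) * p ^ 2 +
      A11 * W T (2 * lam 1) * q ^ 2 + 2 * A01 * W T (lam 0 + lam 1) * (p * q) +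
      2 * A02 * W T (lam 0 + lam 2) * (p * r) + 2 * A12 * W T (lam 1 + lam 2) * (q * r) +
      m * W T (2 * lam 2) * r ^ 2)
    (h3 : σ ≤ m * W T (2 * lam 3)) (y : H) :
    σ * ‖sg b lam h0 T y‖ ^ 2 ≤
      ∫ t in (0 : ℝ)..T, (inner ℂ (sg b lam h0 t y) (M (sg b lam h0 t y))).re := by
  set z := sg b lam h0 T y with hz
  set z0 := b.repr z 0 with hz0
  set z1 := b.repr z 1 with hz1
  set z2 := b.repr z 2 with hz2
  set R := ‖z‖ ^ 2 - ‖z0‖ ^ 2 - ‖z1‖ ^ 2 - ‖z2‖ ^ 2 with hR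
  have hR0 : 0 ≤ R := by
    have h1 := sum_le_hasSum (Finset.range 3) (fun k _ => sq_nonneg ‖b.repr z k‖)
      (hasSum_normSq b z)
    rw [Finset.sum_range_succ, Finset.sum_range_succ, Finset.sum_range_succ, Finset.sum_range_zero]
      at h1
    rw [hR]
    linarith
  let c : Fin 7 → ℝ := ![A00 * ‖z0‖ ^ 2, A11 * ‖z1‖ ^ 2, 2 * A01 * (z0.re * z1.re + z0.im * z1.im),
    2 * A02 * (z0.re * z2.re + z0.im * z2.im), 2 * A12 * (z1.re * z2.re + z1.im * z2.im),
    m * ‖z2‖ ^ 2, m * R]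
  let d : Fin 7 → ℝ := ![2 * lam 0, 2 * lam 1, lam 0 + lam 1, lam 0 + lam 2, lam 1 + lam 2,
    2 * lam 2, 2 * lam 3]
  have hpt : ∀ t ∈ Set.Icc (0 : ℝ) T, ∑ i : Fin 7, c i * Real.exp (d i * (T - t)) ≤
      (inner ℂ (sg b lam h0 t y) (M (sg b lam h0 t y))).re := by
    intro t ht
    have hu : 0 ≤ T - t := by linarith [ht.2]
    have hyz : ∀ k, b.repr (sg b lam h0 t y) k = (Real.exp (lam k * (T - t)) : ℝ) * b.repr z k := by
      intro k
      rw [hz, repr_sg' b lam h0 t ht.1, repr_sg' b lam h0 T hT, ← mul_assoc, ← Complex.ofReal_mul,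
        ← Real.exp_add]
      congr 4
      ring
    have e1 := form_expand b M hsym A00 A01 A02 A11 A12 hM0 hM1 (sg b lam h0 t y) _ _ _ rfl rfl rfl
    have e2 := hm (sg b lam h0 t y - b.repr (sg b lam h0 t y) 0 • b 0 -
      b.repr (sg b lam h0 t y) 1 • b 1)
    have e3 := mul_le_mul_of_nonneg_left
      (tail_bound b lam hmono (T - t) hu (sg b lam h0 t y) z hyz) hm0
    rw [e1]
    refine le_trans ?_ (add_le_add_right (e3.trans e2) _)
    apply le_of_eq
    rw [hyz 0, hyz 1, hyz 2, ← hz0, ← hz1, ← hz2]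
    have x01 : Real.exp ((lam 0 + lam 1) * (T - t)) =
        Real.exp (lam 0 * (T - t)) * Real.exp (lam 1 * (T - t)) := by
      rw [← Real.exp_add]; congr 1; ring
    have x02 : Real.exp ((lam 0 + lam 2) * (T - t)) =
        Real.exp (lam 0 * (T - t)) * Real.exp (lam 2 * (T - t)) := by
      rw [← Real.exp_add]; congr 1; ring
    have x12 : Real.exp ((lam 1 + lam 2) * (T - t)) =
        Real.exp (lam 1 * (T - t)) * Real.exp (lam 2 * (T - t)) := by
      rw [← Real.exp_add]; congr 1; ring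
    have x00 : Real.exp (2 * lam 0 * (T - t)) = Real.exp (lam 0 * (T - t)) ^ 2 := by
      rw [← Real.exp_nat_mul]; congr 1; push_cast; ring
    have x11 : Real.exp (2 * lam 1 * (T - t)) = Real.exp (lam 1 * (T - t)) ^ 2 := by
      rw [← Real.exp_nat_mul]; congr 1; push_cast; ring
    simp only [Fin.sum_univ_succ, c, d]
    simp only [norm_mul, mul_pow, Complex.norm_real, Real.norm_eq_abs, sq_abs,
      Complex.re_ofReal_mul, Complex.im_ofReal_mul]
    simp [x01, x02, x12, x00, x11]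
    ring
  have hcont : Continuous (fun t => (inner ℂ (sg b lam h0 t y) (M (sg b lam h0 t y))).re) := by
    have h1 := continuous_sg b lam h0 y
    exact Complex.continuous_re.comp (h1.inner (M.continuous.comp h1))
  have hint := intervalIntegral.integral_mono_on hT
    (Continuous.intervalIntegrable (by fun_prop) _ _ :
      IntervalIntegrable (fun t => ∑ i : Fin 7, c i * Real.exp (d i * (T - t)))
        MeasureTheory.volume 0 T)
    (hcont.intervalIntegrable _ _) hpt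
  refine le_trans ?_ hint
  rw [intervalIntegral.integral_finsetSum (fun i _ => Continuous.intervalIntegrable (by fun_prop) _ _)]
  have hW : ∀ i : Fin 7, ∫ t in (0 : ℝ)..T, c i * Real.exp (d i * (T - t)) = c i * W T (d i) := by
    intro i
    rw [intervalIntegral.integral_const_mul]
    rfl
  simp only [hW]
  have g1 := hG z0.re z1.re z2.re
  have g2 := hG z0.im z1.im z2.im
  have g3 := mul_le_mul_of_nonneg_right h3 hR0
  have n0 := normSq_parts z0
  have n1 := normSq_parts z1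
  have n2 := normSq_parts z2
  have hn : ‖z‖ ^ 2 = R + (z0.re ^ 2 + z0.im ^ 2) + (z1.re ^ 2 + z1.im ^ 2) +
      (z2.re ^ 2 + z2.im ^ 2) := by
    rw [← n0, ← n1, ← n2, hR]
    ring
  rw [hn]
  simp only [Fin.sum_univ_succ, c, d]
  simp
  rw [n0, n1, n2]
  nlinarith [g1, g2, g3]

end Pool.Agent.LibH46.ObsLower
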