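import Mathlib
import Pool.Agent.LibH46.DiagSemigroup
import Pool.Agent.LibH46.ObsLower
import Pool.Agent.LibH46.BBFun
import Pool.Agent.LibH46.BBHilbert
import Pool.Agent.LibH46.BBMul
import Pool.Agent.LibH46.BBBasis

set_option autoImplicit false

open Filter Topology MeasureTheory Pool.Agent.LibH46.BBHilbert Pool.Agent.LibH46.DiagSemigroup
  Pool.Agent.LibH46.ObsLower Pool.Agent.LibH46.BBMul Pool.Agent.LibH46.BBBasis

namespace Pool.Agent.LibH46.BBMain

open Pool.Agent.LibH46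

/-- The constant term of the optimal profile. -/
noncomputable def al : ℝ := 120491 / 251100

/-- The optimal profile. -/
noncomputable def astar (x : ℝ) : ℝ := al + 1 / 4 * BBFun.τ x

theorem τ_mem (x : ℝ) (hx : x ∈ Set.Ioo (0 : ℝ) 1) : -1 < BBFun.τ x ∧ BBFun.τ x < 1 := by
  constructor
  · rw [← BBFun.τ_zero]
    exact BBFun.strictMono_τ hx.1
  · conv_rhs => rw [← BBFun.τ_one]
    exact BBFun.strictMono_τ hx.2

theorem astar_meas : AEStronglyMeasurable astar μ := by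
  apply Continuous.aestronglyMeasurable
  unfold astar
  have := BBFun.continuous_τ
  fun_prop

theorem ae_μ (p : ℝ → Prop) (h : ∀ x ∈ Set.Ioo (0 : ℝ) 1, p x) : ∀ᵐ x ∂μ, p x := by
  unfold μ
  rw [ae_restrict_iff' measurableSet_Ioo]
  filter_upwards with x hx using h x hx

theorem astar_bounds (x : ℝ) (hx : x ∈ Set.Ioo (0 : ℝ) 1) : 0 < astar x ∧ astar x < 1 := by
  have := τ_mem x hx
  unfold astar al
  constructor <;> linarith

theorem astar_abs : ∀ᵐ x ∂μ, |astar x| ≤ 1 := by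
  apply ae_μ
  intro x hx
  have := astar_bounds x hx
  rw [abs_le]
  constructor <;> linarith

theorem astar_lower : ∀ᵐ x ∂μ, (14429 / 62775 : ℝ) ≤ astar x := by
  apply ae_μ
  intro x hx
  have := τ_mem x hx
  unfold astar al
  linarith

noncomputable def M : H →L[ℂ] H := mulOp astar astar_meas astar_abs

open Polynomial in
noncomputable def P0 : ℂ[X] := C ((√3 / 2 : ℝ) : ℂ) * (1 + X)
open Polynomial in
noncomputable def P1 : ℂ[X] := C ((1 / 2 : ℝ) : ℂ) * (3 * X - 1)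

theorem hb0 : hb 0 = Φ P0 := by
  rw [hb_coe]
  simp only [phi]
  rw [e0, e1, ← map_smul, ← map_smul, ← map_add]
  congr 1
  apply Polynomial.funext
  intro r
  simp [P0, Q]
  ring

theorem hb1 : hb 1 = Φ P1 := by
  rw [hb_coe]
  simp only [phi]
  rw [e0, e1, ← map_smul, ← map_smul, ← map_neg, ← map_add]
  congr 1
  have h3 : ((√3 : ℝ) : ℂ) * ((√3 : ℝ) : ℂ) = 3 := by
    rw [← Complex.ofReal_mul, s3]
    norm_num
  apply Polynomial.funext
  intro r
  simp [P1, Q]
  linear_combination (r / 2) * h3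

theorem hb2 : hb 2 = Φ (Q 2) := by
  rw [hb_coe]
  simp only [phi]
  exact e2

open Polynomial in
noncomputable def R : ℂ[X] := C ((al : ℝ) : ℂ) + C (1 / 4) * X

theorem R_eval (x : ℝ) : R.eval ((BBFun.τ x : ℝ) : ℂ) = (astar x : ℂ) := by
  simp [R, astar]

theorem M_Φ (P : Polynomial ℂ) : M (Φ P) = Φ (R * P) := mulOp_Φ _ _ _ R R_eval P

theorem hM0 : M (hb 0) = ((al + 1 / 8 : ℝ) : ℂ) • hb 0 + ((√3 / 24 : ℝ) : ℂ) • hb 1 +
    ((√3 * √5 / 60 : ℝ) : ℂ) • hb 2 := by
  rw [hb0, hb1, hb2, M_Φ, ← map_smul, ← map_smul, ← map_smul, ← map_add, ← map_add]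
  congr 1
  have h5 : ((√5 : ℝ) : ℂ) * ((√5 : ℝ) : ℂ) = 5 := by
    rw [← Complex.ofReal_mul, s5]
    norm_num
  apply Polynomial.funext
  intro r
  simp [P0, P1, Q, R]
  linear_combination (-((√3 : ℝ) : ℂ) * (3 * r ^ 2 - 1) / 120) * h5

theorem hM1 : M (hb 1) = ((√3 / 24 : ℝ) : ℂ) • hb 0 + ((al - 1 / 8 : ℝ) : ℂ) • hb 1 +
    ((√5 / 20 : ℝ) : ℂ) • hb 2 := by
  rw [hb0, hb1, hb2, M_Φ, ← map_smul, ← map_smul, ← map_smul, ← map_add, ← map_add]
  congr 1
  have h5 : ((√5 : ℝ) : ℂ) * ((√5 : ℝ) : ℂ) = 5 := by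
    rw [← Complex.ofReal_mul, s5]
    norm_num
  have h3 : ((√3 : ℝ) : ℂ) * ((√3 : ℝ) : ℂ) = 3 := by
    rw [← Complex.ofReal_mul, s3]
    norm_num
  apply Polynomial.funext
  intro r
  simp [P0, P1, Q, R]
  linear_combination (-(3 * r ^ 2 - 1) / 40) * h5 - ((1 + r) / 48) * h3

/-- The eigenvalues `1, 2, 3, ...`. -/
noncomputable def lam (k : ℕ) : ℝ := k + 1

theorem lam_nonneg (k : ℕ) : 0 ≤ lam k := by unfold lam; positivity

theorem lam_mono : Monotone lam := by
  intro i j h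
  unfold lam
  have : (i : ℝ) ≤ j := by exact_mod_cast h
  linarith

noncomputable def T : ℝ := Real.log 2

theorem T_pos : 0 < T := Real.log_pos (by norm_num)

theorem W_nat (n : ℕ) (hn : n ≠ 0) : W T (n : ℝ) = (2 ^ n - 1) / n := by
  rw [W_eq _ _ (by exact_mod_cast hn)]
  unfold T
  rw [Real.exp_nat_mul, Real.exp_log (by norm_num)]

noncomputable def σ : ℝ := 568139 / 669600

theorem lower (y : H) : σ * ‖sg hb lam lam_nonneg T y‖ ^ 2 ≤
    ∫ t in (0 : ℝ)..T, (inner ℂ (sg hb lam lam_nonneg t y) (M (sg hb lam lam_nonneg t y))).re := by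
  have w00 : W T (2 * lam 0) = 3 / 2 := by
    have := W_nat 2 (by norm_num)
    norm_num [lam] at this ⊢
    exact this
  have w11 : W T (2 * lam 1) = 15 / 4 := by
    have := W_nat 4 (by norm_num)
    norm_num [lam] at this ⊢
    exact this
  have w01 : W T (lam 0 + lam 1) = 7 / 3 := by
    have := W_nat 3 (by norm_num)
    norm_num [lam] at this ⊢
    exact this
  have w02 : W T (lam 0 + lam 2) = 15 / 4 := by
    have := W_nat 4 (by norm_num)
    norm_num [lam] at this ⊢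
    exact this
  have w12 : W T (lam 1 + lam 2) = 31 / 5 := by
    have := W_nat 5 (by norm_num)
    norm_num [lam] at this ⊢
    exact this
  have w22 : W T (2 * lam 2) = 21 / 2 := by
    have := W_nat 6 (by norm_num)
    norm_num [lam] at this ⊢
    exact this
  have w33 : W T (2 * lam 3) = 255 / 8 := by
    have := W_nat 8 (by norm_num)
    norm_num [lam] at this ⊢
    exact this
  apply lower_bound hb lam lam_nonneg lam_mono M (mulOp_symm _ _ _) (al + 1 / 8) (√3 / 24)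
    (√3 * √5 / 60) (al - 1 / 8) (√5 / 20) hM0 hM1 (14429 / 62775) (by norm_num)
    (coercive _ _ _ _ astar_lower) T T_pos.le σ
  · intro p q r
    rw [w00, w11, w01, w02, w12, w22]
    have h3 := s3
    have h5 := s5
    have key : (al + 1 / 8) * (3 / 2) * p ^ 2 + (al - 1 / 8) * (15 / 4) * q ^ 2 +
        2 * (√3 / 24) * (7 / 3) * (p * q) + 2 * (√3 * √5 / 60) * (15 / 4) * (p * r) +
        2 * (√5 / 20) * (31 / 5) * (q * r) + 14429 / 62775 * (21 / 2) * r ^ 2 -
        σ * (p ^ 2 + q ^ 2 + r ^ 2) =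
        450 / 217 * (217 / 450 * (q + 25 / 124 * √3 * p) + 31 / 100 * √5 * r) ^ 2 +
        (14429 / 62775 * (21 / 2) - σ - 450 / 217 * (961 / 2000)) * r ^ 2 := by
      unfold al σ
      linear_combination (-(217 / 450 * (25 / 124) ^ 2) * p ^ 2) * h3 -
        (450 / 217 * (31 / 100) ^ 2 * r ^ 2) * h5
    have h6 : (0 : ℝ) ≤ 14429 / 62775 * (21 / 2) - σ - 450 / 217 * (961 / 2000) := by
      unfold σ
      norm_num
    nlinarith [sq_nonneg (217 / 450 * (q + 25 / 124 * √3 * p) + 31 / 100 * √5 * r),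
      mul_nonneg h6 (sq_nonneg r)]
  · rw [w33]
    unfold σ
    norm_num

end Pool.Agent.LibH46.BBMain
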