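import Mathlib
import Pool.Agent.LibH46.BBMain

set_option autoImplicit false

open Filter Topology MeasureTheory Pool.Agent.LibH46.BBHilbert Pool.Agent.LibH46.DiagSemigroup
  Pool.Agent.LibH46.ObsLower Pool.Agent.LibH46.BBMul Pool.Agent.LibH46.BBBasis
  Pool.Agent.LibH46.BBMain

namespace Pool.Agent.LibH46.BBUpper

open Pool.Agent.LibH46

/-- The first component of the critical state. -/
noncomputable def u (x : ℝ) : ℝ := 3 / 2 * (1 + BBFun.τ x) * BBFun.ψ x

/-- The second component of the critical state. -/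
noncomputable def v (x : ℝ) : ℝ := -(75 / 248) * (3 * BBFun.τ x - 1) * BBFun.ψ x

theorem cont_u : Continuous u := by
  unfold u
  have h1 := BBFun.continuous_τ
  have h2 := BBFun.continuous_ψ
  fun_prop

theorem cont_v : Continuous v := by
  unfold v
  have h1 := BBFun.continuous_τ
  have h2 := BBFun.continuous_ψ
  fun_prop

theorem quad_const (x : ℝ) : 3 / 2 * u x ^ 2 + 14 / 3 * (u x * v x) + 15 / 4 * v x ^ 2 = BBFun.K := by
  have h1 := BBFun.ψ_sq x
  have h2 := BBFun.D_pos (BBFun.τ x)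
  have h3 : BBFun.ψ x ^ 2 * BBFun.D (BBFun.τ x) = BBFun.K := by
    rw [h1]
    field_simp
  rw [← h3]
  unfold u v BBFun.D BBFun.d0 BBFun.d1 BBFun.d2
  ring

/-- The critical initial state. -/
noncomputable def y0 : H := ((2 * √3 : ℝ) : ℂ) • hb 0 + ((-(75 / 31) : ℝ) : ℂ) • hb 1

theorem y0_mem : y0 ∈ (op hb lam).domain :=
  Submodule.add_mem _ (Submodule.smul_mem _ _ (basis_mem hb lam 0))
    (Submodule.smul_mem _ _ (basis_mem hb lam 1))

theorem exp_T : Real.exp T = 2 := by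
  unfold T
  rw [Real.exp_log (by norm_num)]

theorem S_y0 (t : ℝ) (ht : 0 ≤ t) : sg hb lam lam_nonneg t y0 =
    ((Real.exp (T - t) * √3 : ℝ) : ℂ) • hb 0 +
      ((Real.exp (T - t) ^ 2 * -(75 / 124) : ℝ) : ℂ) • hb 1 := by
  apply ext_repr hb
  intro k
  rw [repr_sg' hb lam lam_nonneg t ht]
  unfold y0
  simp only [map_add, map_smul, lp.coeFn_add, lp.coeFn_smul, Pi.add_apply, Pi.smul_apply,
    repr_basis, smul_eq_mul]
  have hE : Real.exp (T - t) = 2 * Real.exp (-t) := by
    rw [sub_eq_add_neg, Real.exp_add, exp_T]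
  rcases k with _ | _ | k
  · have h1 : Real.exp (-(lam 0 * t)) = Real.exp (-t) := by
      congr 1
      unfold lam
      push_cast
      ring
    rw [h1, hE]
    simp
    ring
  · have h1 : Real.exp (-(lam (0 + 1) * t)) = Real.exp (-t) ^ 2 := by
      rw [← Real.exp_nat_mul]
      congr 1
      unfold lam
      push_cast
      ring
    rw [h1, hE]
    simp
    ring
  · simp

theorem S_y0_coe (t : ℝ) (ht : 0 ≤ t) : (sg hb lam lam_nonneg t y0 : ℝ → ℂ) =ᵐ[μ]
    fun x => ((Real.exp (T - t) * u x + Real.exp (T - t) ^ 2 * v x : ℝ) : ℂ) := by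
  rw [S_y0 t ht, hb0, hb1, ← map_smul, ← map_smul, ← map_add]
  refine (Φ_coe _).trans ?_
  filter_upwards with x
  have h3 : ((√3 : ℝ) : ℂ) * ((√3 : ℝ) : ℂ) = 3 := by
    rw [← Complex.ofReal_mul, s3]
    norm_num
  simp [P0, P1, u, v]
  linear_combination (Complex.exp ((T : ℂ) - t) * (1 + ((BBFun.τ x : ℝ) : ℂ)) *
    ((BBFun.ψ x : ℝ) : ℂ) / 2) * h3

theorem integrable_mul (a : ℝ → ℝ) (ha : AEStronglyMeasurable a μ) (hb : ∀ᵐ x ∂μ, 0 ≤ a x ∧ a x ≤ 1)
    (g : ℝ → ℝ) (hg : Continuous g) : Integrable (fun x => a x * g x) μ := by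
  have h1 : Integrable g μ := by
    unfold μ
    exact (hg.continuousOn.integrableOn_Icc (a := 0) (b := 1)).mono_set Set.Ioo_subset_Icc_self
  apply h1.bdd_mul (c := 1) ha
  filter_upwards [hb] with x hx
  rw [Real.norm_eq_abs, abs_of_nonneg hx.1]
  exact hx.2

theorem inner_integral (a : ℝ → ℝ) (ha : AEStronglyMeasurable a μ)
    (hb' : ∀ᵐ x ∂μ, 0 ≤ a x ∧ a x ≤ 1) (t : ℝ) (ht : 0 ≤ t) :
    ∫ x, a x * ‖(sg hb lam lam_nonneg t y0 : ℝ → ℂ) x‖ ^ 2 ∂μ =
      (∫ x, a x * u x ^ 2 ∂μ) * Real.exp (2 * (T - t)) +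
      (2 * ∫ x, a x * (u x * v x) ∂μ) * Real.exp (3 * (T - t)) +
      (∫ x, a x * v x ^ 2 ∂μ) * Real.exp (4 * (T - t)) := by
  have e2 : Real.exp (2 * (T - t)) = Real.exp (T - t) ^ 2 := by
    rw [← Real.exp_nat_mul]; norm_num
  have e3 : Real.exp (3 * (T - t)) = Real.exp (T - t) ^ 3 := by
    rw [← Real.exp_nat_mul]; norm_num
  have e4 : Real.exp (4 * (T - t)) = Real.exp (T - t) ^ 4 := by
    rw [← Real.exp_nat_mul]; norm_num
  have i1 := integrable_mul a ha hb' (fun x => u x ^ 2) (cont_u.pow 2)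
  have i2 := integrable_mul a ha hb' (fun x => u x * v x) (cont_u.mul cont_v)
  have i3 := integrable_mul a ha hb' (fun x => v x ^ 2) (cont_v.pow 2)
  rw [e2, e3, e4, ← integral_const_mul, ← integral_mul_const, ← integral_mul_const,
    ← integral_mul_const, ← integral_add, ← integral_add]
  · apply integral_congr_ae
    filter_upwards [S_y0_coe t ht] with x hx
    rw [hx, Complex.norm_real, Real.norm_eq_abs, sq_abs]
    ring
  · exact (i1.mul_const _).add ((i2.const_mul 2).mul_const _)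
  · exact i3.mul_const _
  · exact i1.mul_const _
  · exact (i2.const_mul 2).mul_const _

theorem numerator (a : ℝ → ℝ) (ha : AEStronglyMeasurable a μ)
    (hb' : ∀ᵐ x ∂μ, 0 ≤ a x ∧ a x ≤ 1) :
    ∫ t in (0 : ℝ)..T, ∫ x, a x * ‖(sg hb lam lam_nonneg t y0 : ℝ → ℂ) x‖ ^ 2 ∂μ =
      BBFun.K * ∫ x, a x ∂μ := by
  have h1 : ∫ t in (0 : ℝ)..T, ∫ x, a x * ‖(sg hb lam lam_nonneg t y0 : ℝ → ℂ) x‖ ^ 2 ∂μ =
      ∫ t in (0 : ℝ)..T, ((∫ x, a x * u x ^ 2 ∂μ) * Real.exp (2 * (T - t)) +
      (2 * ∫ x, a x * (u x * v x) ∂μ) * Real.exp (3 * (T - t)) +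
      (∫ x, a x * v x ^ 2 ∂μ) * Real.exp (4 * (T - t))) := by
    apply intervalIntegral.integral_congr
    intro t ht
    rw [Set.uIcc_of_le T_pos.le] at ht
    exact inner_integral a ha hb' t ht.1
  have hW2 : ∫ t in (0 : ℝ)..T, Real.exp (2 * (T - t)) = 3 / 2 := by
    have := W_nat 2 (by norm_num)
    unfold W at this
    norm_num at this ⊢
    exact this
  have hW3 : ∫ t in (0 : ℝ)..T, Real.exp (3 * (T - t)) = 7 / 3 := by
    have := W_nat 3 (by norm_num)
    unfold W at this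
    norm_num at this ⊢
    exact this
  have hW4 : ∫ t in (0 : ℝ)..T, Real.exp (4 * (T - t)) = 15 / 4 := by
    have := W_nat 4 (by norm_num)
    unfold W at this
    norm_num at this ⊢
    exact this
  rw [h1, intervalIntegral.integral_add, intervalIntegral.integral_add,
    intervalIntegral.integral_const_mul, intervalIntegral.integral_const_mul,
    intervalIntegral.integral_const_mul, hW2, hW3, hW4]
  · have i1 := integrable_mul a ha hb' (fun x => u x ^ 2) (cont_u.pow 2)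
    have i2 := integrable_mul a ha hb' (fun x => u x * v x) (cont_u.mul cont_v)
    have i3 := integrable_mul a ha hb' (fun x => v x ^ 2) (cont_v.pow 2)
    rw [← integral_const_mul 2, ← integral_mul_const, ← integral_mul_const, ← integral_mul_const,
      ← integral_add, ← integral_add, ← integral_const_mul]
    · apply integral_congr_ae
      filter_upwards with x
      rw [← quad_const x]
      ring
    · exact (i1.mul_const _).add ((i2.const_mul 2).mul_const _)
    · exact i3.mul_const _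
    · exact i1.mul_const _
    · exact (i2.const_mul 2).mul_const _
  · exact Continuous.intervalIntegrable (by fun_prop) _ _
  · exact Continuous.intervalIntegrable (by fun_prop) _ _
  · exact Continuous.intervalIntegrable (by fun_prop) _ _
  · exact Continuous.intervalIntegrable (by fun_prop) _ _

theorem norm_sq_final : ‖sg hb lam lam_nonneg T y0‖ ^ 2 = 3 + (75 / 124) ^ 2 := by
  have o : ∀ i j : ℕ, inner ℂ (hb i) (hb j) = if i = j then (1 : ℂ) else 0 :=
    orthonormal_iff_ite.mp hb.orthonormal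
  have h3 : ((√3 : ℝ) : ℂ) * ((√3 : ℝ) : ℂ) = 3 := by
    rw [← Complex.ofReal_mul, s3]
    norm_num
  rw [S_y0 T T_pos.le, sub_self, Real.exp_zero]
  have h1 := inner_self_eq_norm_sq_to_K (𝕜 := ℂ) (((1 * √3 : ℝ) : ℂ) • hb 0 +
      ((1 ^ 2 * -(75 / 124) : ℝ) : ℂ) • hb 1)
  have h2 : inner ℂ (((1 * √3 : ℝ) : ℂ) • hb 0 + ((1 ^ 2 * -(75 / 124) : ℝ) : ℂ) • hb 1)
      (((1 * √3 : ℝ) : ℂ) • hb 0 + ((1 ^ 2 * -(75 / 124) : ℝ) : ℂ) • hb 1)
      = ((3 + (75 / 124) ^ 2 : ℝ) : ℂ) := by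
    simp only [inner_add_left, inner_add_right, inner_smul_left, inner_smul_right, o,
      Complex.conj_ofReal]
    simp
    linear_combination h3
  rw [h2] at h1
  apply Complex.ofReal_injective
  rw [h1]
  norm_cast

/-- The value of the constraint. -/
noncomputable def L : ℝ := 9800965889 / 20151779400

theorem integral_astar : ∫ x, astar x ∂μ = L := by
  rw [integral_μ]
  have h1 := BBFun.change_var (fun t => (al + 1 / 4 * t) * BBFun.D t / BBFun.K) (by
    unfold BBFun.D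
    fun_prop)
  have h2 : ∫ x in (0 : ℝ)..1, astar x = ∫ x in (0 : ℝ)..1,
      (fun t => (al + 1 / 4 * t) * BBFun.D t / BBFun.K) (BBFun.τ x) * BBFun.ψ x ^ 2 := by
    apply intervalIntegral.integral_congr
    intro x _
    simp only
    rw [BBFun.ψ_sq]
    have h3 := BBFun.D_pos (BBFun.τ x)
    have h4 := BBFun.K_pos
    unfold astar
    field_simp
  rw [h2, h1]
  have h5 : ∫ t in (-1 : ℝ)..1, (al + 1 / 4 * t) * BBFun.D t / BBFun.K
      = ∫ t in (-1 : ℝ)..1, (al * BBFun.d0 / BBFun.K + (al * BBFun.d1 + BBFun.d0 / 4) / BBFun.K * t +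
        (al * BBFun.d2 + BBFun.d1 / 4) / BBFun.K * t ^ 2 + BBFun.d2 / 4 / BBFun.K * t ^ 3 + 0 * t ^ 4) := by
    apply intervalIntegral.integral_congr
    intro t _
    simp only
    unfold BBFun.D
    ring
  rw [h5, quartic_integral]
  unfold L al BBFun.d0 BBFun.d1 BBFun.d2 BBFun.K
  norm_num

theorem ratio : BBFun.K * L / (3 + (75 / 124) ^ 2) = σ := by
  unfold BBFun.K L σ
  norm_num

end Pool.Agent.LibH46.BBUpper
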