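import Mathlib
import Pool.Agent.LibH46.BBUpper

set_option autoImplicit false

open Filter Topology MeasureTheory Pool.Agent.LibH46.BBHilbert Pool.Agent.LibH46.DiagSemigroup
  Pool.Agent.LibH46.ObsLower Pool.Agent.LibH46.BBMul Pool.Agent.LibH46.BBBasis
  Pool.Agent.LibH46.BBMain

namespace Pool.Agent.LibH46.BBLevel

open Pool.Agent.LibH46

theorem level (G : ℝ → ℝ) (hc : Continuous G) (hmono : StrictMonoOn G (Set.Icc 0 1)) (h0 : G 0 = 0)
    (hd : ∀ x ∈ Set.Ioo (0 : ℝ) 1, 0 < deriv G x) (L : ℝ) (hL : 0 < L) (hL1 : L < 1) :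
    (∃ ν > 0, volume {x | x ∈ Set.Ioo (0 : ℝ) 1 ∧ ν ≤ G x} = ENNReal.ofReal L) ∧
    ∀ ν > 0, volume {x | x ∈ Set.Ioo (0 : ℝ) 1 ∧ ν ≤ G x} = ENNReal.ofReal L →
      ∃ ε > 0, ∀ x ∈ frontier {x | x ∈ Set.Ioo (0 : ℝ) 1 ∧ ν ≤ G x} \ frontier (Set.Ioo (0 : ℝ) 1),
        ε ≤ |deriv G x| := by
  constructor
  · refine ⟨G (1 - L), ?_, ?_⟩
    · have := hmono (Set.mem_Icc.mpr ⟨le_refl 0, zero_le_one⟩) (Set.mem_Icc.mpr ⟨by linarith, by linarith⟩)
        (show (0 : ℝ) < 1 - L by linarith)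
      rw [h0] at this
      exact this
    · have : {x | x ∈ Set.Ioo (0 : ℝ) 1 ∧ G (1 - L) ≤ G x} = Set.Ico (1 - L) 1 := by
        ext x
        simp only [Set.mem_ofPred_eq, Set.mem_Ioo, Set.mem_Ico]
        constructor
        · rintro ⟨⟨h1, h2⟩, h3⟩
          refine ⟨?_, h2⟩
          exact (hmono.le_iff_le (Set.mem_Icc.mpr ⟨by linarith, by linarith⟩)
            (Set.mem_Icc.mpr ⟨h1.le, h2.le⟩)).mp h3
        · rintro ⟨h1, h2⟩
          refine ⟨⟨by linarith, h2⟩, ?_⟩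
          exact (hmono.le_iff_le (Set.mem_Icc.mpr ⟨by linarith, by linarith⟩)
            (Set.mem_Icc.mpr ⟨by linarith, h2.le⟩)).mpr h1
      rw [this, Real.volume_Ico]
      congr 1
      ring
  · intro ν hν _
    have key : ∀ x ∈ frontier {x | x ∈ Set.Ioo (0 : ℝ) 1 ∧ ν ≤ G x} \ frontier (Set.Ioo (0 : ℝ) 1),
        x ∈ Set.Ioo (0 : ℝ) 1 ∧ G x = ν := by
      rintro x ⟨hx1, hx2⟩
      have h1 : x ∈ Set.Icc (0 : ℝ) 1 := by
        have h2 := frontier_subset_closure hx1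
        have h3 : closure {x | x ∈ Set.Ioo (0 : ℝ) 1 ∧ ν ≤ G x} ⊆ Set.Icc (0 : ℝ) 1 := by
          apply closure_minimal _ isClosed_Icc
          intro y hy
          exact ⟨hy.1.1.le, hy.1.2.le⟩
        exact h3 h2
      have h2 : ν ≤ G x := by
        have h2 := frontier_subset_closure hx1
        have h3 : closure {x | x ∈ Set.Ioo (0 : ℝ) 1 ∧ ν ≤ G x} ⊆ {x | ν ≤ G x} := by
          apply closure_minimal _ (isClosed_le continuous_const hc)
          intro y hy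
          exact hy.2
        exact h3 h2
      have h3 : x ∈ Set.Ioo (0 : ℝ) 1 := by
        rw [frontier_Ioo zero_lt_one] at hx2
        simp only [Set.mem_insert_iff, Set.mem_singleton_iff, not_or] at hx2
        exact ⟨lt_of_le_of_ne h1.1 (Ne.symm hx2.1), lt_of_le_of_ne h1.2 hx2.2⟩
      refine ⟨h3, ?_⟩
      by_contra hne
      have h4 : ν < G x := lt_of_le_of_ne h2 (Ne.symm hne)
      have h5 : x ∈ interior {x | x ∈ Set.Ioo (0 : ℝ) 1 ∧ ν ≤ G x} := by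
        rw [mem_interior]
        refine ⟨Set.Ioo 0 1 ∩ {x | ν < G x}, ?_, ?_, ⟨h3, h4⟩⟩
        · intro y hy
          exact ⟨hy.1, le_of_lt hy.2⟩
        · exact isOpen_Ioo.inter (isOpen_lt continuous_const hc)
      exact hx1.2 h5
    by_cases hex : ∃ x ∈ Set.Ioo (0 : ℝ) 1, G x = ν
    · obtain ⟨x₀, hx₀, hG⟩ := hex
      refine ⟨deriv G x₀, hd x₀ hx₀, ?_⟩
      intro x hx
      obtain ⟨h1, h2⟩ := key x hx
      have : x = x₀ := hmono.injOn (Set.Ioo_subset_Icc_self h1) (Set.Ioo_subset_Icc_self hx₀)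
        (by rw [h2, hG])
      rw [this]
      exact le_abs_self _
    · refine ⟨1, one_pos, ?_⟩
      intro x hx
      obtain ⟨h1, h2⟩ := key x hx
      exact absurd ⟨x, h1, h2⟩ hex

/-- The square of the modulus of the first eigenfunction. -/
noncomputable def g (x : ℝ) : ℝ := 3 / 4 * (1 + BBFun.τ x) ^ 2 * BBFun.ψ x ^ 2

theorem hasDerivAt_D (t : ℝ) : HasDerivAt BBFun.D (BBFun.d1 + 2 * BBFun.d2 * t) t := by
  unfold BBFun.D
  have h1 := ((hasDerivAt_id t).const_mul BBFun.d1).const_add BBFun.d0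
  have h2 := (hasDerivAt_pow 2 t).const_mul BBFun.d2
  have h3 := h1.add h2
  have h4 : BBFun.d1 * 1 + BBFun.d2 * (((2 : ℕ) : ℝ) * t ^ (2 - 1)) = BBFun.d1 + 2 * BBFun.d2 * t := by
    push_cast
    ring
  rw [h4] at h3
  exact h3

theorem g_eq (x : ℝ) : g x = 3 / 4 * BBFun.K * ((1 + BBFun.τ x) ^ 2 / BBFun.D (BBFun.τ x)) := by
  unfold g
  rw [BBFun.ψ_sq]
  ring

theorem hasDerivAt_g (x : ℝ) : ∃ g' : ℝ, HasDerivAt g g' x ∧ (-1 < BBFun.τ x → BBFun.τ x < 1 → 0 < g') := by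
  have hD := BBFun.D_pos (BBFun.τ x)
  have hK := BBFun.K_pos
  have hτ := BBFun.hasDerivAt_τ x
  have h1 : HasDerivAt (fun t : ℝ => (1 + t) ^ 2 / BBFun.D t)
      ((2 * (1 + BBFun.τ x) * BBFun.D (BBFun.τ x) - (1 + BBFun.τ x) ^ 2 *
        (BBFun.d1 + 2 * BBFun.d2 * BBFun.τ x)) / BBFun.D (BBFun.τ x) ^ 2) (BBFun.τ x) := by
    have h2 : HasDerivAt (fun t : ℝ => (1 + t) ^ 2) (2 * (1 + BBFun.τ x)) (BBFun.τ x) := by
      have h := ((hasDerivAt_id (BBFun.τ x)).const_add 1).pow 2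
      have e : ((2 : ℕ) : ℝ) * (1 + id (BBFun.τ x)) ^ (2 - 1) * 1 = 2 * (1 + BBFun.τ x) := by
        simp
      rw [e] at h
      exact h
    exact h2.div (hasDerivAt_D _) hD.ne'
  have h2 := (h1.comp x hτ).const_mul (3 / 4 * BBFun.K)
  refine ⟨(3 / 4 * BBFun.K *
      ((2 * (1 + BBFun.τ x) * BBFun.D (BBFun.τ x) - (1 + BBFun.τ x) ^ 2 *
        (BBFun.d1 + 2 * BBFun.d2 * BBFun.τ x)) / BBFun.D (BBFun.τ x) ^ 2 *
        (2 * BBFun.K / BBFun.D (BBFun.τ x)))), ?_, ?_⟩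
  · have : g = fun x => 3 / 4 * BBFun.K * ((fun t : ℝ => (1 + t) ^ 2 / BBFun.D t) ∘ BBFun.τ) x := by
      funext x
      exact g_eq x
    rw [this]
    exact h2
  · intro ht1 ht2
    have h3 : 2 * (1 + BBFun.τ x) * BBFun.D (BBFun.τ x) - (1 + BBFun.τ x) ^ 2 *
        (BBFun.d1 + 2 * BBFun.d2 * BBFun.τ x) = (1 + BBFun.τ x) * ((2 * BBFun.d0 - BBFun.d1) +
          (BBFun.d1 - 2 * BBFun.d2) * BBFun.τ x) := by
      unfold BBFun.D
      ring
    have h4 : 0 < (2 * BBFun.d0 - BBFun.d1) + (BBFun.d1 - 2 * BBFun.d2) * BBFun.τ x := by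
      unfold BBFun.d0 BBFun.d1 BBFun.d2
      norm_num
      linarith
    rw [h3]
    have h5 : 0 < 1 + BBFun.τ x := by linarith
    positivity

theorem cont_g : Continuous g := by
  unfold g
  have h1 := BBFun.continuous_τ
  have h2 := BBFun.continuous_ψ
  fun_prop

theorem deriv_g_pos (x : ℝ) (hx : x ∈ Set.Ioo (0 : ℝ) 1) : 0 < deriv g x := by
  obtain ⟨g', h1, h2⟩ := hasDerivAt_g x
  rw [h1.deriv]
  have := τ_mem x hx
  exact h2 this.1 this.2

theorem strictMono_g : StrictMonoOn g (Set.Icc 0 1) := by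
  apply strictMonoOn_of_deriv_pos (convex_Icc 0 1) cont_g.continuousOn
  intro x hx
  rw [interior_Icc] at hx
  exact deriv_g_pos x hx

theorem g_zero : g 0 = 0 := by
  unfold g
  rw [BBFun.τ_zero]
  norm_num

theorem level_g (c : ℝ) (hc : 0 < c) (L : ℝ) (hL : 0 < L) (hL1 : L < 1) :
    (∃ ν > 0, volume {x | x ∈ Set.Ioo (0 : ℝ) 1 ∧ ν ≤ c * g x} = ENNReal.ofReal L) ∧
    ∀ ν > 0, volume {x | x ∈ Set.Ioo (0 : ℝ) 1 ∧ ν ≤ c * g x} = ENNReal.ofReal L →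
      ∃ ε > 0, ∀ x ∈ frontier {x | x ∈ Set.Ioo (0 : ℝ) 1 ∧ ν ≤ c * g x} \
        frontier (Set.Ioo (0 : ℝ) 1), ε ≤ |deriv (fun x => c * g x) x| := by
  apply level (fun x => c * g x) (continuous_const.mul cont_g) _ _ _ L hL hL1
  · intro x hx y hy hxy
    exact mul_lt_mul_of_pos_left (strictMono_g hx hy hxy) hc
  · rw [g_zero, mul_zero]
  · intro x hx
    obtain ⟨g', h1, h2⟩ := hasDerivAt_g x
    rw [(h1.const_mul c).deriv]
    have := τ_mem x hx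
    exact mul_pos hc (h2 this.1 this.2)

theorem analytic_fp (P : Polynomial ℂ) (x : ℝ) :
    AnalyticAt ℝ (fun x : ℝ => P.eval ((BBFun.τ x : ℝ) : ℂ) * ((BBFun.ψ x : ℝ) : ℂ)) x := by
  have h1 : AnalyticAt ℝ (fun x : ℝ => ((BBFun.τ x : ℝ) : ℂ)) x :=
    (Complex.ofRealCLM.analyticAt _).comp (BBFun.analyticAt_τ x)
  have h2 : AnalyticAt ℝ (fun x : ℝ => ((BBFun.ψ x : ℝ) : ℂ)) x :=
    (Complex.ofRealCLM.analyticAt _).comp (BBFun.analyticAt_ψ x)
  apply AnalyticAt.mul _ h2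
  induction P using Polynomial.induction_on' with
  | add p q hp hq =>
    simp only [Polynomial.eval_add]
    exact hp.add hq
  | monomial n a =>
    simp only [Polynomial.eval_monomial]
    exact analyticAt_const.mul (h1.pow n)

end Pool.Agent.LibH46.BBLevel
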