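import Mathlib

set_option autoImplicit false
open Polynomial

namespace Pool.Agent.LibH46.CondBKey

/-- Even/odd decomposition. -/
theorem even_odd (f : ℝ[X]) : f = expand ℝ 2 (contract 2 f) + X * expand ℝ 2 (contract 2 f.divX) := by
  ext m
  rw [coeff_add]
  rcases m with _ | m
  · simp [coeff_expand, coeff_contract]
  · rw [coeff_X_mul, coeff_expand (by norm_num), coeff_expand (by norm_num),
      coeff_contract (by norm_num), coeff_contract (by norm_num), coeff_divX]
    rcases Nat.even_or_odd m with h | h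
    · obtain ⟨j, rfl⟩ := h
      have h1 : ¬ (2 ∣ j + j + 1) := by omega
      have h2 : (2 ∣ j + j) := by omega
      have h3 : (j + j) / 2 * 2 + 1 = j + j + 1 := by omega
      rw [if_neg h1, if_pos h2, h3]; ring
    · obtain ⟨j, rfl⟩ := h
      have h1 : (2 ∣ 2 * j + 1 + 1) := by omega
      have h2 : ¬ (2 ∣ 2 * j + 1) := by omega
      have h3 : (2 * j + 1 + 1) / 2 * 2 = 2 * j + 1 + 1 := by omega
      rw [if_pos h1, if_neg h2, h3]; ring

theorem eval_even_odd (f : ℝ[X]) (s : ℝ) :
    f.eval s = (contract 2 f).eval (s ^ 2) + s * (contract 2 f.divX).eval (s ^ 2) := by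
  conv_lhs => rw [even_odd f]
  simp [expand_eval]

theorem aeval_even_odd (f : ℝ[X]) (s : ℂ) :
    aeval s f = aeval (s ^ 2) (contract 2 f) + s * aeval (s ^ 2) (contract 2 f.divX) := by
  conv_lhs => rw [even_odd f]
  simp [expand_aeval]

theorem natDegree_e (f : ℝ[X]) : (contract 2 f).natDegree ≤ f.natDegree / 2 := by
  rw [natDegree_le_iff_coeff_eq_zero]
  intro m hm
  rw [coeff_contract (by norm_num)]
  apply coeff_eq_zero_of_natDegree_lt
  omega

theorem natDegree_o (f : ℝ[X]) : (contract 2 f.divX).natDegree ≤ (f.natDegree - 1) / 2 := by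
  rw [natDegree_le_iff_coeff_eq_zero]
  intro m hm
  rw [coeff_contract (by norm_num), coeff_divX]
  apply coeff_eq_zero_of_natDegree_lt
  omega

/-- Factorisation from enough distinct roots. -/
theorem factor {ι : Type} [Fintype ι] (p : ℝ[X]) (hp : p ≠ 0) (r : ι → ℝ)
    (hr : Function.Injective r) (hroot : ∀ i, p.eval (r i) = 0)
    (hcard : p.natDegree ≤ Fintype.card ι) :
    p = C p.leadingCoeff * ∏ i, (X - C (r i)) := by
  classical
  set R : Finset ℝ := Finset.univ.image r with hR
  have hRc : R.card = Fintype.card ι := by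
    rw [hR, Finset.card_image_of_injective _ hr, Finset.card_univ]
  have hle : R.val ≤ p.roots := by
    rw [Multiset.le_iff_subset R.nodup]
    intro a ha
    have : a ∈ R := ha
    rw [hR, Finset.mem_image] at this
    obtain ⟨i, _, rfl⟩ := this
    rw [mem_roots hp]
    exact hroot i
  have heq : R.val = p.roots := by
    apply Multiset.eq_of_le_of_card_le hle
    calc p.roots.card ≤ p.natDegree := card_roots' p
      _ ≤ Fintype.card ι := hcard
      _ = R.val.card := hRc.symm
  have hc : p.roots.card = p.natDegree := by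
    apply le_antisymm (card_roots' p)
    rw [← heq]
    exact hcard.trans hRc.ge
  have h1 := C_leadingCoeff_mul_prod_multiset_X_sub_C hc
  rw [← heq] at h1
  have h2 : (R.val.map (fun a => X - C a)).prod = ∏ i, (X - C (r i)) := by
    change ∏ a ∈ R, (X - C a) = _
    rw [hR, Finset.prod_image (fun a _ b _ h => hr h)]
  rw [h2] at h1
  exact h1.symm


/-- The angle of `u + i v` for `v > 0`. -/
noncomputable def ang (u v : ℝ) : ℝ := Real.pi / 2 - Real.arctan (u / v)

theorem ang_polar (u v : ℝ) (hv : 0 < v) :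
    ((u : ℂ) + v * Complex.I) =
      (Real.sqrt (u ^ 2 + v ^ 2) : ℝ) * Complex.exp ((ang u v : ℝ) * Complex.I) := by
  have h1 : Real.sqrt (u ^ 2 + v ^ 2) = v * Real.sqrt (1 + (u / v) ^ 2) := by
    rw [Real.sqrt_eq_iff_mul_self_eq (by positivity) (by positivity)]
    rw [mul_mul_mul_comm, Real.mul_self_sqrt (by positivity)]
    field_simp
    ring
  have h2 : 0 < Real.sqrt (1 + (u / v) ^ 2) := Real.sqrt_pos.2 (by positivity)
  rw [Complex.exp_mul_I, ← Complex.ofReal_cos, ← Complex.ofReal_sin]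
  unfold ang
  rw [Real.cos_pi_div_two_sub, Real.sin_pi_div_two_sub, Real.sin_arctan, Real.cos_arctan, h1]
  apply Complex.ext
  · simp
    field_simp
  · simp
    field_simp

theorem ang_pos (u v : ℝ) : 0 < ang u v := by
  unfold ang
  have := Real.arctan_lt_pi_div_two (u / v)
  linarith

theorem ang_lt (u v : ℝ) : ang u v < Real.pi := by
  unfold ang
  have := Real.neg_pi_div_two_lt_arctan (u / v)
  linarith

/-- Total angle of the real-rooted product on the imaginary axis. -/
noncomputable def Theta (S : Finset ℝ) (c t : ℝ) : ℝ := ∑ a ∈ S, ang (c - a) t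

theorem Theta_cont (S : Finset ℝ) (c : ℝ) : ContinuousOn (Theta S c) (Set.Ioi 0) := by
  unfold Theta ang
  apply continuousOn_finsetSum
  intro a _
  apply ContinuousOn.sub continuousOn_const
  apply Real.continuous_arctan.comp_continuousOn
  apply ContinuousOn.div continuousOn_const continuousOn_id
  intro t ht
  exact ne_of_gt ht

open Filter Topology in
theorem Theta_zero (S : Finset ℝ) (c : ℝ) (hc : c ∉ S) :
    Tendsto (Theta S c) (𝓝[>] 0) (𝓝 ((S.filter (fun a => c < a)).card * Real.pi)) := by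
  have h : ((S.filter (fun a => c < a)).card * Real.pi : ℝ)
      = ∑ a ∈ S, (if c < a then Real.pi else 0) := by
    rw [← Finset.sum_filter, Finset.sum_const, nsmul_eq_mul]
  rw [h]
  unfold Theta
  apply tendsto_finsetSum
  intro a ha
  unfold ang
  have hinv : Tendsto (fun t : ℝ => t⁻¹) (𝓝[>] 0) atTop := tendsto_inv_nhdsGT_zero
  by_cases hca : c < a
  · rw [if_pos hca]
    have h1 : Tendsto (fun t : ℝ => (c - a) / t) (𝓝[>] 0) atBot := by
      simp_rw [div_eq_mul_inv]
      exact hinv.const_mul_atTop_of_neg (by linarith)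
    have h2 := (Real.tendsto_arctan_atBot.mono_right nhdsWithin_le_nhds).comp h1
    have h3 := h2.const_sub (Real.pi / 2)
    have e : Real.pi / 2 - -(Real.pi / 2) = Real.pi := by ring
    rw [e] at h3
    exact h3
  · rw [if_neg hca]
    have hne : a ≠ c := fun h => hc (h ▸ ha)
    have hlt : a < c := lt_of_le_of_ne (not_lt.1 hca) hne
    have h1 : Tendsto (fun t : ℝ => (c - a) / t) (𝓝[>] 0) atTop := by
      simp_rw [div_eq_mul_inv]
      exact hinv.const_mul_atTop (by linarith)
    have h2 := (Real.tendsto_arctan_atTop.mono_right nhdsWithin_le_nhds).comp h1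
    have h3 := h2.const_sub (Real.pi / 2)
    have e : Real.pi / 2 - (Real.pi / 2) = 0 := by ring
    rw [e] at h3
    exact h3

open Filter Topology in
theorem Theta_top (S : Finset ℝ) (c : ℝ) :
    Tendsto (Theta S c) atTop (𝓝 (S.card * (Real.pi / 2))) := by
  have h : (S.card * (Real.pi / 2) : ℝ) = ∑ a ∈ S, (Real.pi / 2 - 0) := by
    rw [Finset.sum_const, nsmul_eq_mul, sub_zero]
  rw [h]
  unfold Theta
  apply tendsto_finsetSum
  intro a ha
  unfold ang
  have h1 : Tendsto (fun t : ℝ => (c - a) / t) atTop (𝓝 0) := tendsto_const_nhds.div_atTop tendsto_id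
  have h2 := (Real.continuous_arctan.tendsto 0).comp h1
  rw [Real.arctan_zero] at h2
  exact h2.const_sub (Real.pi / 2)

/-- Intermediate value below a given point. -/
theorem Theta_ivt (S : Finset ℝ) (c : ℝ) (hc : c ∉ S) (T l : ℝ) (hT : 0 < T)
    (h1 : ((S.filter (fun a => c < a)).card * Real.pi : ℝ) < l) (h2 : l < Theta S c T) :
    ∃ t, 0 < t ∧ t < T ∧ Theta S c t = l := by
  have h3 := (Theta_zero S c hc).eventually (gt_mem_nhds h1)
  have h4 : ∀ᶠ t in nhdsWithin (0:ℝ) (Set.Ioi 0), t < T :=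
    nhdsWithin_le_nhds (gt_mem_nhds hT)
  have h5 : ∀ᶠ t in nhdsWithin (0:ℝ) (Set.Ioi 0), 0 < t := self_mem_nhdsWithin
  obtain ⟨a, ha1, ha2, ha3⟩ := (h3.and (h4.and h5)).exists
  have hcont : ContinuousOn (Theta S c) (Set.Icc a T) :=
    (Theta_cont S c).mono (fun t ht => lt_of_lt_of_le ha3 ht.1)
  have := intermediate_value_Ioo ha2.le hcont
  obtain ⟨t, ht, hte⟩ := this ⟨ha1, h2⟩
  exact ⟨t, lt_trans ha3 ht.1, ht.2, hte⟩

/-- Chain of points with prescribed increasing levels. -/
theorem chain (S : Finset ℝ) (c : ℝ) (hc : c ∉ S) (l : ℕ → ℝ) (m : ℕ)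
    (hl0 : ∀ j, ((S.filter (fun a => c < a)).card * Real.pi : ℝ) < l j)
    (hl : ∀ j, l j < l (j + 1)) (T : ℝ) (hT : 0 < T) (hlT : ∀ j < m, l j < Theta S c T) :
    ∃ t : ℕ → ℝ, (∀ j < m, 0 < t j ∧ t j < T ∧ Theta S c (t j) = l j) ∧
      ∀ j, j + 1 < m → t j < t (j + 1) := by
  induction m generalizing T with
  | zero => exact ⟨fun _ => 0, by simp, by simp⟩
  | succ m ih =>
    obtain ⟨tm, h1, h2, h3⟩ := Theta_ivt S c hc T (l m) hT (hl0 m) (hlT m (by omega))
    have hmono : StrictMono l := strictMono_nat_of_lt_succ hl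
    obtain ⟨t, ht1, ht2⟩ := ih tm h1 (fun j hj => by rw [h3]; exact hmono hj)
    refine ⟨fun j => if j < m then t j else tm, ?_, ?_⟩
    · intro j hj
      by_cases hjm : j < m
      · simp only [hjm, if_true]
        obtain ⟨a, b, c'⟩ := ht1 j hjm
        exact ⟨a, b.trans h2, c'⟩
      · have : j = m := by omega
        subst this
        simp only [lt_irrefl, if_false]
        exact ⟨h1, h2, h3⟩
    · intro j hj
      have hjm : j < m := by omega
      simp only [hjm, if_true]
      by_cases hj1 : j + 1 < m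
      · simp only [hj1, if_true]
        exact ht2 j hj1
      · simp only [hj1, if_false]
        exact (ht1 j hjm).2.1

/-- The point at infinity version. -/
theorem Theta_large (S : Finset ℝ) (c l : ℝ) (hl : l < S.card * (Real.pi / 2)) :
    ∃ T, 0 < T ∧ l < Theta S c T := by
  have h1 := (Theta_top S c).eventually (lt_mem_nhds hl)
  have h2 : ∀ᶠ t : ℝ in Filter.atTop, 0 < t := Filter.eventually_gt_atTop 0
  obtain ⟨T, hT1, hT2⟩ := (h2.and h1).exists
  exact ⟨T, hT1, hT2⟩

theorem Theta_polar (S : Finset ℝ) (c t : ℝ) (ht : 0 < t) :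
    ∃ R : ℝ, 0 < R ∧ ∏ a ∈ S, (((c - a : ℝ) : ℂ) + t * Complex.I)
      = (R : ℂ) * Complex.exp ((Theta S c t : ℝ) * Complex.I) := by
  refine ⟨∏ a ∈ S, Real.sqrt ((c - a) ^ 2 + t ^ 2), ?_, ?_⟩
  · apply Finset.prod_pos
    intro a _
    exact Real.sqrt_pos.2 (by positivity)
  · unfold Theta
    push_cast
    rw [Finset.sum_mul, Complex.exp_sum, ← Finset.prod_mul_distrib]
    apply Finset.prod_congr rfl
    intro a _
    have := ang_polar (c - a) t ht
    push_cast at this
    exact this


theorem ang_anti (u u' v : ℝ) (hv : 0 < v) (h : u ≤ u') : ang u' v ≤ ang u v := by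
  unfold ang
  have : Real.arctan (u / v) ≤ Real.arctan (u' / v) :=
    Real.arctan_mono (div_le_div_of_nonneg_right h hv.le)
  linarith

theorem ang_double (s y : ℝ) (hs : 0 < s) (hy : 0 < y) :
    ang (s ^ 2 - y ^ 2) (2 * s * y) = 2 * ang s y := by
  have h1 : 0 < ang (s ^ 2 - y ^ 2) (2 * s * y) := ang_pos _ _
  have h2 : ang (s ^ 2 - y ^ 2) (2 * s * y) < Real.pi := ang_lt _ _
  have h3 : 0 < ang s y := ang_pos _ _
  have h4 : ang s y < Real.pi / 2 := by
    unfold ang
    have : 0 < Real.arctan (s / y) := Real.arctan_pos.2 (by positivity)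
    linarith
  apply Real.injOn_cos ⟨h1.le, h2.le⟩ ⟨by linarith, by linarith⟩
  rw [Real.cos_two_mul]
  unfold ang
  rw [Real.cos_pi_div_two_sub, Real.cos_pi_div_two_sub, Real.sin_arctan, Real.sin_arctan]
  have e1 : Real.sqrt (1 + ((s ^ 2 - y ^ 2) / (2 * s * y)) ^ 2) = (s ^ 2 + y ^ 2) / (2 * s * y) := by
    rw [Real.sqrt_eq_iff_mul_self_eq (by positivity) (by positivity)]
    field_simp
    ring
  rw [e1, div_pow, Real.sq_sqrt (by positivity)]
  field_simp
  ring

/-- Alternating sums of a decreasing nonnegative sequence. -/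
theorem alt_bound (b : ℕ → ℝ) (hb0 : ∀ j, 0 ≤ b j) (J : ℕ) (hb : ∀ j < J, b (j + 1) ≤ b j) :
    0 ≤ ∑ j ∈ Finset.range ((J + 1) / 2), b (2 * j + 1) - ∑ j ∈ Finset.range (J / 2), b (2 * j + 2) ∧
    ∑ j ∈ Finset.range ((J + 1) / 2), b (2 * j + 1) - ∑ j ∈ Finset.range (J / 2), b (2 * j + 2)
      ≤ b 0 := by
  have key : ∀ K ≤ J, (Even K → 0 ≤ ∑ j ∈ Finset.range ((K + 1) / 2), b (2 * j + 1) - ∑ j ∈ Finset.range (K / 2), b (2 * j + 2) ∧
      ∑ j ∈ Finset.range ((K + 1) / 2), b (2 * j + 1) - ∑ j ∈ Finset.range (K / 2), b (2 * j + 2)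
      + b K ≤ b 0) ∧ (Odd K → b K ≤ ∑ j ∈ Finset.range ((K + 1) / 2), b (2 * j + 1) - ∑ j ∈ Finset.range (K / 2), b (2 * j + 2) ∧
      ∑ j ∈ Finset.range ((K + 1) / 2), b (2 * j + 1) - ∑ j ∈ Finset.range (K / 2), b (2 * j + 2)
      ≤ b 0) := by
    intro K
    induction K with
    | zero =>
      intro _
      refine ⟨fun _ => by simp, fun h => by simp at h⟩
    | succ K ih =>
      intro hK
      obtain ⟨ih1, ih2⟩ := ih (by omega)
      have hbK := hb K (by omega)
      constructor
      · intro hev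
        have hodd : Odd K := by
          rcases Nat.even_or_odd K with h | h
          · exact absurd hev (by simpa using h.add_one)
          · exact h
        obtain ⟨p, q⟩ := ih2 hodd
        obtain ⟨r, hr⟩ := hodd
        have e1 : (K + 1 + 1) / 2 = (K + 1) / 2 := by omega
        have e2 : (K + 1) / 2 = K / 2 + 1 := by omega
        have e3 : 2 * (K / 2) + 2 = K + 1 := by omega
        rw [e1]
        have e4 : ∑ j ∈ Finset.range ((K + 1) / 2), b (2 * j + 2)
            = ∑ j ∈ Finset.range (K / 2), b (2 * j + 2) + b (K + 1) := by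
          rw [e2, Finset.sum_range_succ, e3]
        rw [e4]
        constructor <;> linarith
      · intro hod
        have hev : Even K := by
          rcases Nat.even_or_odd K with h | h
          · exact h
          · exact absurd hod (by simpa using h.add_one)
        obtain ⟨p, q⟩ := ih1 hev
        obtain ⟨r, hr⟩ := hev
        have e1 : (K + 1 + 1) / 2 = (K + 1) / 2 + 1 := by omega
        have e2 : (K + 1) / 2 = K / 2 := by omega
        have e3 : 2 * ((K + 1) / 2) + 1 = K + 1 := by omega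
        have e4 : ∑ j ∈ Finset.range ((K + 1 + 1) / 2), b (2 * j + 1)
            = ∑ j ∈ Finset.range ((K + 1) / 2), b (2 * j + 1) + b (K + 1) := by
          rw [e1, Finset.sum_range_succ, e3]
        rw [e4]
        have e5 : ∑ j ∈ Finset.range ((K + 1) / 2), b (2 * j + 2)
            = ∑ j ∈ Finset.range (K / 2), b (2 * j + 2) := by rw [e2]
        rw [e5]
        constructor <;> linarith
  obtain ⟨h1, h2⟩ := key J le_rfl
  rcases Nat.even_or_odd J with h | h
  · obtain ⟨p, q⟩ := h1 h
    exact ⟨p, by linarith [hb0 J]⟩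
  · obtain ⟨p, q⟩ := h2 h
    exact ⟨by linarith [hb0 J], q⟩

theorem root_between (p : ℝ[X]) (a b : ℝ) (hab : a < b) (h : p.eval a * p.eval b < 0) :
    ∃ r, a < r ∧ r < b ∧ p.eval r = 0 := by
  have hc : ContinuousOn (fun x => p.eval x) (Set.Icc a b) := p.continuous.continuousOn
  rcases mul_neg_iff.1 h with ⟨h1, h2⟩ | ⟨h1, h2⟩
  · obtain ⟨r, hr, hre⟩ := intermediate_value_Ioo' hab.le hc ⟨h2, h1⟩
    exact ⟨r, hr.1, hr.2, hre⟩
  · obtain ⟨r, hr, hre⟩ := intermediate_value_Ioo hab.le hc ⟨h1, h2⟩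
    exact ⟨r, hr.1, hr.2, hre⟩

theorem sign_prod (S : Finset ℝ) (t : ℝ) (ht : t ∉ S) :
    0 < (-1 : ℝ) ^ (S.filter (fun a => t < a)).card * ∏ a ∈ S, (t - a) := by
  have h : (-1 : ℝ) ^ (S.filter (fun a => t < a)).card = ∏ a ∈ S, (if t < a then (-1:ℝ) else 1) := by
    rw [← Finset.prod_filter, Finset.prod_const]
  rw [h, ← Finset.prod_mul_distrib]
  apply Finset.prod_pos
  intro a ha
  have hne : t ≠ a := fun h => ht (h ▸ ha)
  split_ifs with h1
  · linarith
  · have : a < t := lt_of_le_of_ne (not_lt.1 h1) hne.symm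
    linarith

/-- Product of the polar forms. -/
theorem prod_polar {ι : Type} [Fintype ι] (r : ι → ℝ) (s y : ℝ) (hs : 0 < s) (hy : 0 < y) :
    ∃ R : ℝ, 0 < R ∧ ∏ i, (((s : ℂ) + y * Complex.I) ^ 2 - (r i : ℂ))
      = (R : ℂ) * Complex.exp ((∑ i, ang (s ^ 2 - y ^ 2 - r i) (2 * s * y) : ℝ) * Complex.I) := by
  refine ⟨∏ i, Real.sqrt ((s ^ 2 - y ^ 2 - r i) ^ 2 + (2 * s * y) ^ 2), ?_, ?_⟩
  · apply Finset.prod_pos
    intro a _
    exact Real.sqrt_pos.2 (by positivity)
  · push_cast
    rw [Finset.sum_mul, Complex.exp_sum, ← Finset.prod_mul_distrib]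
    apply Finset.prod_congr rfl
    intro a _
    have := ang_polar (s ^ 2 - y ^ 2 - r a) (2 * s * y) (by positivity)
    push_cast at this
    rw [← this]
    ring_nf
    rw [Complex.I_sq]
    ring

/-- The final comparison from a factorisation and the angle bound. -/
theorem compare {ι κ : Type} [Fintype ι] [Fintype κ] (f e o : ℝ[X])
    (hf : ∀ z : ℂ, aeval z f = aeval (z ^ 2) e + z * aeval (z ^ 2) o)
    (le lo : ℝ) (hle : 0 < le) (hlo : 0 < lo) (re : ι → ℝ) (ro : κ → ℝ)
    (he : e = C le * ∏ i, (X - C (re i))) (ho : o = C lo * ∏ i, (X - C (ro i)))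
    (s y : ℝ) (hs : 0 < s) (hy : 0 < y)
    (hup : ∑ i, ang (s ^ 2 - y ^ 2 - re i) (2 * s * y) - ∑ i, ang (s ^ 2 - y ^ 2 - ro i) (2 * s * y)
      ≤ ang (s ^ 2 - y ^ 2 - s ^ 2) (2 * s * y))
    (hlow : ang (s ^ 2 - y ^ 2 - 0) (2 * s * y) - ang (s ^ 2 - y ^ 2 - s ^ 2) (2 * s * y) ≤
      ∑ i, ang (s ^ 2 - y ^ 2 - re i) (2 * s * y) - ∑ i, ang (s ^ 2 - y ^ 2 - ro i) (2 * s * y)) :
    ‖aeval (-((s : ℂ) + y * Complex.I)) f‖ < ‖aeval ((s : ℂ) + y * Complex.I) f‖ := by
  set z : ℂ := (s : ℂ) + y * Complex.I with hz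
  obtain ⟨Re, hRe, hRe'⟩ := prod_polar re s y hs hy
  obtain ⟨Ro, hRo, hRo'⟩ := prod_polar ro s y hs hy
  set A := ∑ i, ang (s ^ 2 - y ^ 2 - re i) (2 * s * y) with hA
  set B := ∑ i, ang (s ^ 2 - y ^ 2 - ro i) (2 * s * y) with hB
  have hE : aeval (z ^ 2) e = ((le * Re : ℝ) : ℂ) * Complex.exp ((A : ℝ) * Complex.I) := by
    rw [he, map_mul, aeval_C, map_prod]
    simp only [map_sub, aeval_X, aeval_C, Complex.coe_algebraMap]
    rw [← hz] at hRe'
    rw [hRe']
    push_cast
    ring
  have hzp := ang_polar s y hy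
  have hmod : 0 < Real.sqrt (s ^ 2 + y ^ 2) := Real.sqrt_pos.2 (by positivity)
  have hO : z * aeval (z ^ 2) o = ((Real.sqrt (s ^ 2 + y ^ 2) * (lo * Ro) : ℝ) : ℂ)
      * Complex.exp ((ang s y + B : ℝ) * Complex.I) := by
    rw [ho, map_mul, aeval_C, map_prod]
    simp only [map_sub, aeval_X, aeval_C, Complex.coe_algebraMap]
    rw [← hz] at hRo' hzp
    rw [hRo']
    have e1 : Complex.exp ((ang s y + B : ℝ) * Complex.I)
        = Complex.exp ((ang s y : ℝ) * Complex.I) * Complex.exp ((B : ℝ) * Complex.I) := by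
      rw [← Complex.exp_add]; congr 1; push_cast; ring
    rw [e1]
    conv_lhs => rw [hzp]
    push_cast
    ring
  have h1 : aeval z f = ((le * Re : ℝ) : ℂ) * Complex.exp ((A : ℝ) * Complex.I)
      + ((Real.sqrt (s ^ 2 + y ^ 2) * (lo * Ro) : ℝ) : ℂ)
      * Complex.exp ((ang s y + B : ℝ) * Complex.I) := by
    rw [hf, hE, hO]
  have h2 : aeval (-z) f = ((le * Re : ℝ) : ℂ) * Complex.exp ((A : ℝ) * Complex.I)
      - ((Real.sqrt (s ^ 2 + y ^ 2) * (lo * Ro) : ℝ) : ℂ)
      * Complex.exp ((ang s y + B : ℝ) * Complex.I) := by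
    rw [hf, neg_sq, neg_mul, hE, hO]
    ring
  have ha : 0 < le * Re := by positivity
  have hb : 0 < Real.sqrt (s ^ 2 + y ^ 2) * (lo * Ro) := by positivity
  set a := le * Re with haa
  set b := Real.sqrt (s ^ 2 + y ^ 2) * (lo * Ro) with hbb
  have hd := ang_double s y hs hy
  -- the angle bound
  have hx0 : ang (s ^ 2 - y ^ 2 - s ^ 2) (2 * s * y) - Real.pi / 2 < ang s y := by
    unfold ang
    have e1 : (s ^ 2 - y ^ 2 - s ^ 2) / (2 * s * y) = -(y / (2 * s)) := by
      field_simp
      ring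
    rw [e1, Real.arctan_neg]
    have e2 : Real.arctan (s / y) = Real.pi / 2 - Real.arctan (y / s) := by
      have := Real.arctan_inv_of_pos (x := y / s) (by positivity)
      rw [inv_div] at this
      exact this
    rw [e2]
    have e3 : Real.arctan (y / (2 * s)) < Real.arctan (y / s) := by
      apply Real.arctan_strictMono
      apply div_lt_div_of_pos_left hy hs
      linarith
    linarith
  rw [sub_zero, hd] at hlow
  have hT1 : A - (ang s y + B) < Real.pi / 2 := by linarith
  have hT2 : -(Real.pi / 2) < A - (ang s y + B) := by linarith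
  have hcos : 0 < Real.cos (A - (ang s y + B)) := Real.cos_pos_of_mem_Ioo ⟨hT2, hT1⟩
  have hsq : ‖aeval z f‖ ^ 2 - ‖aeval (-z) f‖ ^ 2 = 4 * (a * b * Real.cos (A - (ang s y + B))) := by
    rw [h1, h2, ← Complex.normSq_eq_norm_sq, ← Complex.normSq_eq_norm_sq, Complex.exp_mul_I,
      Complex.exp_mul_I, ← Complex.ofReal_cos, ← Complex.ofReal_sin, ← Complex.ofReal_cos,
      ← Complex.ofReal_sin, Real.cos_sub]
    simp only [Complex.normSq_apply, Complex.add_re, Complex.mul_re, Complex.ofReal_re,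
      Complex.ofReal_im, Complex.I_re, Complex.I_im, Complex.add_im, Complex.mul_im, Complex.sub_re,
      Complex.sub_im]
    ring
  have : 0 < ‖aeval z f‖ ^ 2 - ‖aeval (-z) f‖ ^ 2 := by
    rw [hsq]; positivity
  have h5 : ‖aeval (-z) f‖ ^ 2 < ‖aeval z f‖ ^ 2 := by linarith
  exact lt_of_pow_lt_pow_left₀ 2 (norm_nonneg _) h5


theorem natDegree_f (S : Finset ℝ) (c : ℝ) :
    (∏ a ∈ S, (X + C (c - a)) : ℝ[X]).natDegree = S.card := by
  rw [natDegree_prod_of_monic _ _ (fun a _ => monic_X_add_C _),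
    Finset.sum_congr rfl (fun a _ => natDegree_X_add_C _)]
  simp

theorem leading_pos {ι : Type} [Fintype ι] (p : ℝ[X]) (r : ι → ℝ) (b l : ℝ)
    (hp : p = C l * ∏ i, (X - C (r i))) (hb : 0 < p.eval b) (hr : ∀ i, r i < b) :
    0 < l := by
  rw [hp, eval_mul, eval_C, eval_prod] at hb
  have : 0 < ∏ i, eval b (X - C (r i)) := by
    apply Finset.prod_pos
    intro i _
    simp only [eval_sub, eval_X, eval_C]
    linarith [hr i]
  by_contra h
  have := mul_nonpos_of_nonpos_of_nonneg (not_lt.1 h) this.le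
  linarith

/-- Real values of the even and odd parts at a test point. -/
theorem eo_sign (f : ℝ[X]) (u : ℝ) (hu : 0 < u) (i : ℕ) (h1 : 0 < (-1 : ℝ) ^ i * f.eval u)
    (h2 : |f.eval (-u)| < |f.eval u|) :
    0 < (-1 : ℝ) ^ i * (contract 2 f).eval (u ^ 2) ∧
    0 < (-1 : ℝ) ^ i * (contract 2 f.divX).eval (u ^ 2) := by
  have e1 := eval_even_odd f u
  have e2 := eval_even_odd f (-u)
  rw [neg_sq] at e2
  have h3 : |(-1 : ℝ) ^ i| = 1 := by simp
  have h4 : |(-1 : ℝ) ^ i * f.eval (-u)| < (-1 : ℝ) ^ i * f.eval u := by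
    rw [abs_mul, h3, one_mul]
    calc |f.eval (-u)| < |f.eval u| := h2
      _ = |(-1 : ℝ) ^ i * f.eval u| := by rw [abs_mul, h3, one_mul]
      _ = (-1 : ℝ) ^ i * f.eval u := abs_of_pos h1
  obtain ⟨h5, h6⟩ := abs_lt.1 h4
  rw [e1, e2] at h5 h6
  constructor
  · nlinarith
  · have : 0 < u * ((-1 : ℝ) ^ i * (contract 2 f.divX).eval (u ^ 2)) := by nlinarith
    by_contra h
    have := mul_nonpos_of_nonneg_of_nonpos hu.le (not_lt.1 h)
    linarith


theorem neg_one_mul_neg (i : ℕ) (a b : ℝ) (h1 : 0 < (-1 : ℝ) ^ i * a)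
    (h2 : 0 < (-1 : ℝ) ^ (i + 1) * b) : b * a < 0 := by
  rw [pow_succ] at h2
  rcases neg_one_pow_eq_or ℝ i with h | h
  · rw [h] at h1 h2
    have ha : 0 < a := by linarith
    have hb : b < 0 := by linarith
    exact mul_neg_of_neg_of_pos hb ha
  · rw [h] at h1 h2
    have ha : a < 0 := by linarith
    have hb : 0 < b := by linarith
    exact mul_neg_of_pos_of_neg hb ha

theorem key (S : Finset ℝ) (c s : ℝ) (hs : 0 < s) (hcS : c ∉ S) (N : ℕ)
    (hN : N = (S.filter (fun a => c < a)).card) (h2N : 2 * N ≤ S.card) (hn : 1 ≤ S.card)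
    (t : ℕ → ℝ) (ht0 : t 0 = c + s)
    (ht1 : ∀ i < max N 1, c < t i)
    (ht2 : ∀ i < max N 1, t i ∉ S)
    (ht3 : ∀ i < max N 1, (S.filter (fun a => t i < a)).card = i)
    (ht4 : ∀ i < max N 1, |∏ a ∈ S, (2 * c - t i - a)| < |∏ a ∈ S, (t i - a)|)
    (y : ℝ) (hy : 0 < y) :
    ‖∏ a ∈ S, (((c - s : ℝ) : ℂ) + y * Complex.I - a)‖
      < ‖∏ a ∈ S, (((c + s : ℝ) : ℂ) + y * Complex.I - a)‖ := by
  set f : ℝ[X] := ∏ a ∈ S, (X + C (c - a)) with hf
  set e := contract 2 f with he
  set o := contract 2 f.divX with ho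
  have hdf : f.natDegree = S.card := natDegree_f S c
  have hde : e.natDegree ≤ S.card / 2 := by rw [← hdf]; exact natDegree_e f
  have hdo : o.natDegree ≤ (S.card - 1) / 2 := by rw [← hdf]; exact natDegree_o f
  have hfeval : ∀ u, f.eval u = ∏ a ∈ S, (c + u - a) := by
    intro u
    rw [hf, eval_prod]
    apply Finset.prod_congr rfl
    intro a _
    simp only [eval_add, eval_X, eval_C]
    ring
  have hfaeval : ∀ z : ℂ, aeval z f = ∏ a ∈ S, ((c : ℂ) + z - a) := by
    intro z
    rw [hf, map_prod]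
    apply Finset.prod_congr rfl
    intro a _
    simp only [map_add, aeval_X, aeval_C, Complex.coe_algebraMap, Complex.ofReal_sub]
    ring
  -- reduce to f
  suffices hmain : ‖aeval (-((s : ℂ) + y * Complex.I)) f‖ < ‖aeval ((s : ℂ) + y * Complex.I) f‖ by
    rw [hfaeval, hfaeval] at hmain
    calc ‖∏ a ∈ S, (((c - s : ℝ) : ℂ) + y * Complex.I - a)‖
        = ‖∏ a ∈ S, ((c : ℂ) + -((s : ℂ) + y * Complex.I) - a)‖ := by
          rw [norm_prod, norm_prod]
          apply Finset.prod_congr rfl
          intro a _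
          have e1 : ((c : ℂ) + -((s : ℂ) + y * Complex.I) - a)
              = (starRingEnd ℂ) (((c - s : ℝ) : ℂ) + y * Complex.I - a) := by
            simp
            ring
          rw [e1, RCLike.norm_conj]
      _ < _ := hmain
      _ = _ := by
          congr 1
          apply Finset.prod_congr rfl
          intro a _
          push_cast
          ring
  -- sign information
  have hM : ∀ i < max N 1, 0 < (-1 : ℝ) ^ i * e.eval ((t i - c) ^ 2) ∧
      0 < (-1 : ℝ) ^ i * o.eval ((t i - c) ^ 2) := by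
    intro i hi
    apply eo_sign f (t i - c) (by linarith [ht1 i hi]) i
    · rw [hfeval]
      have := sign_prod S (t i) (ht2 i hi)
      rw [ht3 i hi] at this
      have e1 : ∏ a ∈ S, (c + (t i - c) - a) = ∏ a ∈ S, (t i - a) := by
        apply Finset.prod_congr rfl; intro a _; ring
      rw [e1]; exact this
    · rw [hfeval, hfeval]
      have e1 : ∏ a ∈ S, (c + (t i - c) - a) = ∏ a ∈ S, (t i - a) := by
        apply Finset.prod_congr rfl; intro a _; ring
      have e2 : ∏ a ∈ S, (c + -(t i - c) - a) = ∏ a ∈ S, (2 * c - t i - a) := by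
        apply Finset.prod_congr rfl; intro a _; ring
      rw [e1, e2]; exact ht4 i hi
  have hM0 := hM 0 (by simp)
  rw [ht0] at hM0
  have hcs : (c + s - c) = s := by ring
  rw [hcs] at hM0
  simp only [pow_zero, one_mul] at hM0
  have he0 : e ≠ 0 := by rintro h; rw [h] at hM0; simp at hM0
  have ho0 : o ≠ 0 := by rintro h; rw [h] at hM0; simp at hM0
  have heN : 0 < (-1 : ℝ) ^ N * e.eval 0 := by
    have h1 := sign_prod S c hcS
    rw [← hN] at h1
    have h2 := eval_even_odd f 0
    rw [hfeval, zero_mul, add_zero, add_zero] at h2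
    rw [h2] at h1
    have : (0:ℝ)^2 = 0 := by norm_num
    rw [this] at h1
    exact h1
  -- the test abscissas
  have htanti : ∀ i, i + 1 < N → t (i + 1) < t i := by
    intro i hi
    by_contra hcon
    have h1 := ht3 i (by omega)
    have h2 := ht3 (i + 1) (by omega)
    have : S.filter (fun a => t (i + 1) < a) ⊆ S.filter (fun a => t i < a) := by
      intro a ha
      rw [Finset.mem_filter] at ha ⊢
      exact ⟨ha.1, lt_of_le_of_lt (not_lt.1 hcon) ha.2⟩
    have := Finset.card_le_card this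
    omega
  obtain ⟨x, hx⟩ : ∃ x : ℕ → ℝ, ∀ i, x i = if i < N then (t i - c) ^ 2 else (N : ℝ) - i :=
    ⟨_, fun _ => rfl⟩
  have hxN : x N = 0 := by rw [hx]; simp
  have hx0 : x 0 ≤ s ^ 2 := by
    rw [hx]
    split_ifs with h
    · rw [ht0, hcs]
    · have : N = 0 := by omega
      rw [this]; simp; positivity
  have hxanti : StrictAnti x := by
    apply strictAnti_nat_of_succ_lt
    intro i
    rw [hx, hx]
    by_cases h1 : i + 1 < N
    · rw [if_pos h1, if_pos (by omega : i < N)]
      have a1 := ht1 (i + 1) (by omega)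
      have a2 := htanti i h1
      apply pow_lt_pow_left₀ (by linarith) (by linarith) (by norm_num)
    · rw [if_neg h1]
      by_cases h2 : i < N
      · rw [if_pos h2]
        have : N = i + 1 := by omega
        have a1 := ht1 i (by omega)
        rw [this]
        have : 0 < (t i - c) ^ 2 := by
          apply pow_pos; linarith
        push_cast
        linarith
      · rw [if_neg h2]
        push_cast
        linarith
  have hesign : ∀ i ≤ N, 0 < (-1 : ℝ) ^ i * e.eval (x i) := by
    intro i hi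
    rcases Nat.lt_or_ge i N with h | h
    · rw [hx, if_pos h]; exact (hM i (by omega)).1
    · have : i = N := by omega
      rw [this, hxN]; exact heN
  have hosign : ∀ i < N, 0 < (-1 : ℝ) ^ i * o.eval (x i) := by
    intro i hi
    rw [hx, if_pos hi]; exact (hM i (by omega)).2
  -- positive roots of e
  have hex1 : ∀ i, ∃ r, i < N → x (i + 1) < r ∧ r < x i ∧ e.eval r = 0 := by
    intro i
    by_cases hi : i < N
    · obtain ⟨r, h1, h2, h3⟩ := root_between e (x (i + 1)) (x i) (hxanti (by omega))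
        (neg_one_mul_neg i _ _ (hesign i (by omega)) (hesign (i + 1) (by omega)))
      exact ⟨r, fun _ => ⟨h1, h2, h3⟩⟩
    · exact ⟨0, fun h => absurd h hi⟩
  choose ε hε using hex1
  have hex2 : ∀ i, ∃ r, i + 1 < N → x (i + 1) < r ∧ r < x i ∧ o.eval r = 0 := by
    intro i
    by_cases hi : i + 1 < N
    · obtain ⟨r, h1, h2, h3⟩ := root_between o (x (i + 1)) (x i) (hxanti (by omega))
        (neg_one_mul_neg i _ _ (hosign i (by omega)) (hosign (i + 1) (by omega)))
      exact ⟨r, fun _ => ⟨h1, h2, h3⟩⟩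
    · exact ⟨0, fun h => absurd h hi⟩
  choose ω hω using hex2
  have hεinj : ∀ i j, i < N → j < N → i < j → ε j < ε i := by
    intro i j hi hj hij
    have h1 := (hε i hi).1
    have h2 := (hε j hj).2.1
    have h3 : x j ≤ x (i + 1) := hxanti.antitone (by omega)
    linarith
  have hpoly : ∀ z : ℂ, aeval z f = aeval (z ^ 2) e + z * aeval (z ^ 2) o := aeval_even_odd f
  have hθ : ∀ w w' : ℝ, w ≤ w' → ang (s ^ 2 - y ^ 2 - w) (2 * s * y)
      ≤ ang (s ^ 2 - y ^ 2 - w') (2 * s * y) := by
    intro w w' h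
    exact ang_anti _ _ _ (by positivity) (by linarith)
  obtain ⟨θ, hθd⟩ : ∃ θ : ℝ → ℝ, ∀ w, θ w = ang (s ^ 2 - y ^ 2 - w) (2 * s * y) := ⟨_, fun _ => rfl⟩
  have hθm : Monotone θ := by intro w w' h; rw [hθd, hθd]; exact hθ w w' h
  have hθ0 : ∀ w, 0 ≤ θ w := by intro w; rw [hθd]; exact (ang_pos _ _).le
  have hS1 : ∑ i ∈ Finset.range N, θ (ε i) ≤ ∑ i ∈ Finset.range N, θ (x i) :=
    Finset.sum_le_sum (fun i hi => hθm (hε i (Finset.mem_range.1 hi)).2.1.le)
  have hS2 : ∑ i ∈ Finset.range N, θ (x (i + 1)) ≤ ∑ i ∈ Finset.range N, θ (ε i) :=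
    Finset.sum_le_sum (fun i hi => hθm (hε i (Finset.mem_range.1 hi)).1.le)
  have hxs : θ (x 0) ≤ θ (s ^ 2) := hθm hx0
  have hεx : ∀ i < N, ε i < s ^ 2 := by
    intro i hi
    have h1 := (hε i hi).2.1
    have h2 : x i ≤ x 0 := hxanti.antitone (by omega)
    linarith
  rcases Nat.eq_or_lt_of_le h2N with hcase | hcase
  · -- case n = 2N
    obtain ⟨K, rfl⟩ : ∃ K, N = K + 1 := ⟨N - 1, by omega⟩
    have hefac := factor e he0 (fun i : Fin (K + 1) => ε i)
      (by
        intro i j hij
        simp only at hij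
        rcases lt_trichotomy (i : ℕ) (j : ℕ) with h | h | h
        · exact absurd hij (hεinj i j i.2 j.2 h).ne'
        · exact Fin.ext h
        · exact absurd hij (hεinj j i j.2 i.2 h).ne)
      (fun i => (hε i i.2).2.2) (by rw [Fintype.card_fin]; omega)
    have hωinj : ∀ i j, i < K → j < K → i < j → ω j < ω i := by
      intro i j hi hj hij
      have h1 := (hω i (by omega)).1
      have h2 := (hω j (by omega)).2.1
      have h3 : x j ≤ x (i + 1) := hxanti.antitone (by omega)
      linarith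
    have hofac := factor o ho0 (fun i : Fin K => ω i)
      (by
        intro i j hij
        simp only at hij
        rcases lt_trichotomy (i : ℕ) (j : ℕ) with h | h | h
        · exact absurd hij (hωinj i j i.2 j.2 h).ne'
        · exact Fin.ext h
        · exact absurd hij (hωinj j i j.2 i.2 h).ne)
      (fun i => (hω i (by omega)).2.2) (by rw [Fintype.card_fin]; omega)
    have hle := leading_pos e _ (s ^ 2) _ hefac hM0.1 (fun i => hεx i i.2)
    have hlo := leading_pos o _ (s ^ 2) _ hofac hM0.2 (fun i => by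
      have h1 := (hω i (by omega)).2.1
      have h2 : x i ≤ x 0 := hxanti.antitone (by omega)
      show ω i < s ^ 2
      linarith)
    have hO1 : ∑ i ∈ Finset.range K, θ (x (i + 1)) ≤ ∑ i ∈ Finset.range K, θ (ω i) :=
      Finset.sum_le_sum (fun i hi => hθm (hω i (by have := Finset.mem_range.1 hi; omega)).1.le)
    have hO2 : ∑ i ∈ Finset.range K, θ (ω i) ≤ ∑ i ∈ Finset.range K, θ (x i) :=
      Finset.sum_le_sum (fun i hi => hθm (hω i (by have := Finset.mem_range.1 hi; omega)).2.1.le)
    have hsum1 : ∑ i ∈ Finset.range (K + 1), θ (x i)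
        = ∑ i ∈ Finset.range K, θ (x (i + 1)) + θ (x 0) := Finset.sum_range_succ' _ _
    have hsum2 : ∑ i ∈ Finset.range (K + 1), θ (x (i + 1))
        = ∑ i ∈ Finset.range K, θ (x (i + 1)) + θ (x (K + 1)) := Finset.sum_range_succ _ _
    have htel : ∑ i ∈ Finset.range K, (θ (x (i + 1)) - θ (x i)) = θ (x K) - θ (x 0) :=
      Finset.sum_range_sub (fun i => θ (x i)) K
    rw [Finset.sum_sub_distrib] at htel
    rw [hxN] at hsum2
    have hK0 := hθ0 (x K)
    refine compare f e o hpoly _ _ hle hlo _ _ hefac hofac s y hs hy ?_ ?_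
    · simp_rw [← hθd]
      rw [← Finset.sum_range (fun i => θ (ε i)), ← Finset.sum_range (fun i => θ (ω i))]
      linarith
    · simp_rw [← hθd]
      rw [← Finset.sum_range (fun i => θ (ε i)), ← Finset.sum_range (fun i => θ (ω i))]
      linarith
  · -- case n ≥ 2N+1
    obtain ⟨J, hJ⟩ : ∃ J, S.card = 2 * N + J + 1 := ⟨S.card - 2 * N - 1, by omega⟩
    obtain ⟨l, hl⟩ : ∃ l : ℕ → ℝ, ∀ j, l j = N * Real.pi + (if j = 0 then Real.pi / 4 else j * (Real.pi / 2)) :=
      ⟨_, fun _ => rfl⟩
    have hpi := Real.pi_pos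
    have hl0 : ∀ j, ((S.filter (fun a => c < a)).card * Real.pi : ℝ) < l j := by
      intro j
      rw [← hN, hl]
      split_ifs with h
      · linarith
      · have : (0:ℝ) < j := by exact_mod_cast Nat.pos_of_ne_zero h
        have : 0 < (j:ℝ) * (Real.pi / 2) := by positivity
        linarith
    have hl1 : ∀ j, l j < l (j + 1) := by
      intro j
      rw [hl, hl, if_neg (by omega : ¬ j + 1 = 0)]
      split_ifs with h
      · rw [h]; push_cast; linarith
      · push_cast; linarith
    have hlJ : l J < S.card * (Real.pi / 2) := by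
      rw [hl, hJ]
      split_ifs with h
      · rw [h]; push_cast; linarith
      · push_cast; linarith
    obtain ⟨T, hT, hlT⟩ := Theta_large S c (l J) hlJ
    have hlmono : StrictMono l := strictMono_nat_of_lt_succ hl1
    obtain ⟨τ, hτ1, hτ2⟩ := chain S c hcS l (J + 1) hl0 hl1 T hT
      (fun j hj => lt_of_le_of_lt (hlmono.monotone (by omega)) hlT)
    -- values on the imaginary axis
    have himag : ∀ j ≤ J, ∃ R : ℝ, 0 < R ∧ e.eval (-(τ j) ^ 2) = R * Real.cos (l j) ∧
        τ j * o.eval (-(τ j) ^ 2) = R * Real.sin (l j) := by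
      intro j hj
      obtain ⟨h1, h2, h3⟩ := hτ1 j (by omega)
      obtain ⟨R, hR, hR'⟩ := Theta_polar S c (τ j) h1
      refine ⟨R, hR, ?_⟩
      have h4 := hpoly ((τ j : ℂ) * Complex.I)
      have h5 : aeval ((τ j : ℂ) * Complex.I) f = (R : ℂ) * Complex.exp ((l j : ℝ) * Complex.I) := by
        rw [hfaeval, ← h3, ← hR']
        apply Finset.prod_congr rfl
        intro a _
        push_cast
        ring
      have h6 : ((τ j : ℂ) * Complex.I) ^ 2 = ((-(τ j) ^ 2 : ℝ) : ℂ) := by
        rw [mul_pow, Complex.I_sq]; push_cast; ring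
      have h7 : ∀ (p : ℝ[X]) (r : ℝ), aeval (r : ℂ) p = ((p.eval r : ℝ) : ℂ) := by
        intro p r
        exact aeval_algebraMap_apply_eq_algebraMap_eval r p
      rw [h5, h6, h7, h7, Complex.exp_mul_I, ← Complex.ofReal_cos, ← Complex.ofReal_sin] at h4
      have h8 := congrArg Complex.re h4
      have h9 := congrArg Complex.im h4
      simp only [Complex.mul_re, Complex.add_re, Complex.ofReal_re, Complex.ofReal_im, Complex.I_re,
        Complex.I_im, Complex.mul_im, Complex.add_im] at h8 h9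
      constructor
      · linarith
      · linarith
    have he_odd : ∀ i, 2 * i + 1 ≤ J → e.eval (-(τ (2 * i + 1)) ^ 2) = 0 := by
      intro i hi
      obtain ⟨R, hR, h1, h2⟩ := himag (2 * i + 1) hi
      rw [h1, hl, if_neg (by omega)]
      have : (N * Real.pi + ((2 * i + 1 : ℕ) : ℝ) * (Real.pi / 2)) = ((N + i : ℕ) : ℝ) * Real.pi + Real.pi / 2 := by
        push_cast; ring
      rw [this, Real.cos_add_pi_div_two, Real.sin_nat_mul_pi]
      simp
    have ho_even : ∀ i, 2 * i + 2 ≤ J → o.eval (-(τ (2 * i + 2)) ^ 2) = 0 := by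
      intro i hi
      obtain ⟨R, hR, h1, h2⟩ := himag (2 * i + 2) hi
      rw [hl, if_neg (by omega)] at h2
      have : (N * Real.pi + ((2 * i + 2 : ℕ) : ℝ) * (Real.pi / 2)) = ((N + i + 1 : ℕ) : ℝ) * Real.pi := by
        push_cast; ring
      rw [this, Real.sin_nat_mul_pi, mul_zero] at h2
      have := (hτ1 (2 * i + 2) (by omega)).1
      rcases mul_eq_zero.1 h2 with h | h
      · linarith
      · exact h
    have ho_zero : 0 < (-1 : ℝ) ^ N * o.eval (-(τ 0) ^ 2) := by
      obtain ⟨R, hR, h1, h2⟩ := himag 0 (by omega)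
      rw [hl, if_pos rfl, add_comm, Real.sin_add_nat_mul_pi, Real.sin_pi_div_four] at h2
      have h3 := (hτ1 0 (by omega)).1
      have h4 : 0 < τ 0 * ((-1 : ℝ) ^ N * o.eval (-(τ 0) ^ 2)) := by
        have e1 : τ 0 * ((-1 : ℝ) ^ N * o.eval (-(τ 0) ^ 2))
            = (-1 : ℝ) ^ N * (τ 0 * o.eval (-(τ 0) ^ 2)) := by ring
        rw [e1, h2]
        have e2 : (-1 : ℝ) ^ N * (R * ((-1 : ℝ) ^ N * (Real.sqrt 2 / 2)))
            = ((-1 : ℝ) ^ N) ^ 2 * (R * (Real.sqrt 2 / 2)) := by ring
        rw [e2, ← pow_mul, mul_comm N 2, pow_mul]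
        norm_num
        exact hR
      by_contra hcon
      have := mul_nonpos_of_nonneg_of_nonpos h3.le (not_lt.1 hcon)
      linarith
    have hτmono : ∀ i j, i < j → j ≤ J → τ i < τ j := by
      intro i j hij
      induction j, hij using Nat.le_induction with
      | base => intro h; exact hτ2 i (by omega)
      | succ j hj ih => intro h; exact (ih (by omega)).trans (hτ2 j (by omega))
    -- the extra root of o
    obtain ⟨ρ, hρ⟩ : ∃ ρ : ℝ, 1 ≤ N → -(τ 0) ^ 2 < ρ ∧ ρ < x (N - 1) ∧ o.eval ρ = 0 := by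
      by_cases hN1 : 1 ≤ N
      · obtain ⟨K, rfl⟩ : ∃ K, N = K + 1 := ⟨N - 1, by omega⟩
        have h1 : -(τ 0) ^ 2 < x K := by
          have h2 : x (K + 1) < x K := hxanti (by omega)
          rw [hxN] at h2
          have := sq_nonneg (τ 0)
          linarith
        obtain ⟨r, h2, h3, h4⟩ := root_between o (-(τ 0) ^ 2) (x K) h1
          (neg_one_mul_neg K _ _ (hosign K (by omega)) ho_zero)
        exact ⟨r, fun _ => ⟨h2, h3, h4⟩⟩
      · exact ⟨0, fun h => absurd h hN1⟩
    obtain ⟨ω', hω'⟩ : ∃ ω' : ℕ → ℝ, ∀ i, ω' i = if i + 1 < N then ω i else ρ := ⟨_, fun _ => rfl⟩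
    have hω1 : ∀ i < N, ω' i < x i ∧ o.eval (ω' i) = 0 ∧ -(τ 0) ^ 2 < ω' i := by
      intro i hi
      rw [hω']
      split_ifs with h
      · refine ⟨(hω i h).2.1, (hω i h).2.2, ?_⟩
        have h1 := (hω i h).1
        have h2 : x N ≤ x (i + 1) := hxanti.antitone (by omega)
        rw [hxN] at h2
        have := sq_nonneg (τ 0)
        linarith
      · have h1 := hρ (by omega)
        have : i = N - 1 := by omega
        rw [this]
        exact ⟨h1.2.1, h1.2.2, h1.1⟩
    have hω2 : ∀ i, i + 1 < N → x (i + 1) < ω' i := by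
      intro i hi
      rw [hω', if_pos hi]
      exact (hω i hi).1
    have hω'inj : ∀ i j, i < N → j < N → i < j → ω' j < ω' i := by
      intro i j hi hj hij
      have h1 := hω2 i (by omega)
      have h2 := (hω1 j hj).1
      have h3 : x j ≤ x (i + 1) := hxanti.antitone (by omega)
      linarith
    have hsq : ∀ i j, i < j → j ≤ J → -(τ j) ^ 2 < -(τ i) ^ 2 := by
      intro i j hij hj
      have h1 := hτmono i j hij hj
      have h2 := (hτ1 i (by omega)).1
      have := pow_lt_pow_left₀ h1 h2.le (n := 2) (by norm_num)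
      linarith
    have hneg : ∀ j ≤ J, -(τ j) ^ 2 < 0 := by
      intro j hj
      have := (hτ1 j (by omega)).1
      have : 0 < (τ j) ^ 2 := by positivity
      linarith
    have hefac := factor e he0
      (Sum.elim (fun i : Fin N => ε i) (fun j : Fin ((J + 1) / 2) => -(τ (2 * j + 1)) ^ 2))
      (by
        apply Function.Injective.sumElim
        · intro i j hij
          simp only at hij
          rcases lt_trichotomy (i : ℕ) (j : ℕ) with h | h | h
          · exact absurd hij (hεinj i j i.2 j.2 h).ne'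
          · exact Fin.ext h
          · exact absurd hij (hεinj j i j.2 i.2 h).ne
        · intro i j hij
          simp only at hij
          have hi := i.2
          have hj := j.2
          rcases lt_trichotomy (i : ℕ) (j : ℕ) with h | h | h
          · exact absurd hij (hsq (2 * i + 1) (2 * j + 1) (by omega) (by omega)).ne'
          · exact Fin.ext h
          · exact absurd hij (hsq (2 * j + 1) (2 * i + 1) (by omega) (by omega)).ne
        · intro i j hij
          have hi := i.2
          have hj := j.2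
          have h1 := (hε i i.2).1
          have h2 : x N ≤ x (i + 1) := hxanti.antitone (by omega)
          rw [hxN] at h2
          have h3 := hneg (2 * j + 1) (by omega)
          rw [hij] at h1
          linarith)
      (by
        rintro (i | j)
        · exact (hε i i.2).2.2
        · have hj := j.2
          exact he_odd j (by omega))
      (by rw [Fintype.card_sum, Fintype.card_fin, Fintype.card_fin]; omega)
    have hofac := factor o ho0
      (Sum.elim (fun i : Fin N => ω' i) (fun j : Fin (J / 2) => -(τ (2 * j + 2)) ^ 2))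
      (by
        apply Function.Injective.sumElim
        · intro i j hij
          simp only at hij
          rcases lt_trichotomy (i : ℕ) (j : ℕ) with h | h | h
          · exact absurd hij (hω'inj i j i.2 j.2 h).ne'
          · exact Fin.ext h
          · exact absurd hij (hω'inj j i j.2 i.2 h).ne
        · intro i j hij
          simp only at hij
          have hi := i.2
          have hj := j.2
          rcases lt_trichotomy (i : ℕ) (j : ℕ) with h | h | h
          · exact absurd hij (hsq (2 * i + 2) (2 * j + 2) (by omega) (by omega)).ne'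
          · exact Fin.ext h
          · exact absurd hij (hsq (2 * j + 2) (2 * i + 2) (by omega) (by omega)).ne
        · intro i j hij
          have hi := i.2
          have hj := j.2
          have h1 := (hω1 i i.2).2.2
          have h3 := hsq 0 (2 * j + 2) (by omega) (by omega)
          rw [hij] at h1
          linarith)
      (by
        rintro (i | j)
        · exact (hω1 i i.2).2.1
        · have hj := j.2
          exact ho_even j (by omega))
      (by rw [Fintype.card_sum, Fintype.card_fin, Fintype.card_fin]; omega)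
    have hs2 : 0 < s ^ 2 := by positivity
    have hle := leading_pos e _ (s ^ 2) _ hefac hM0.1 (by
      rintro (i | j)
      · exact hεx i i.2
      · have hj := j.2
        have h3 := hneg (2 * j + 1) (by omega)
        show -(τ (2 * j + 1)) ^ 2 < s ^ 2
        linarith)
    have hlo := leading_pos o _ (s ^ 2) _ hofac hM0.2 (by
      rintro (i | j)
      · have h1 := (hω1 i i.2).1
        have h2 : x i ≤ x 0 := hxanti.antitone (by omega)
        show ω' i < s ^ 2
        linarith
      · have hj := j.2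
        have h3 := hneg (2 * j + 2) (by omega)
        show -(τ (2 * j + 2)) ^ 2 < s ^ 2
        linarith)
    obtain ⟨hB1, hB2⟩ := alt_bound (fun j => θ (-(τ j) ^ 2)) (fun j => hθ0 _) J
      (fun j hj => hθm (hsq j (j + 1) (by omega) (by omega)).le)
    have hmain : ∑ i ∈ Finset.range N, θ (ε i) - ∑ i ∈ Finset.range N, θ (ω' i)
        + θ (-(τ 0) ^ 2) ≤ θ (s ^ 2) ∧
        θ 0 - θ (s ^ 2) ≤ ∑ i ∈ Finset.range N, θ (ε i) - ∑ i ∈ Finset.range N, θ (ω' i) := by
      rcases Nat.eq_zero_or_pos N with hN0 | hN0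
      · rw [hN0]
        simp only [Finset.range_zero, Finset.sum_empty, sub_zero, zero_add]
        have h1 : θ 0 ≤ θ (s ^ 2) := hθm hs2.le
        have h2 : θ (-(τ 0) ^ 2) ≤ θ 0 := hθm (hneg 0 (by omega)).le
        exact ⟨by linarith, by linarith⟩
      · obtain ⟨K, hK⟩ : ∃ K, N = K + 1 := ⟨N - 1, by omega⟩
        have hO1 : ∑ i ∈ Finset.range K, θ (x (i + 1)) ≤ ∑ i ∈ Finset.range K, θ (ω' i) :=
          Finset.sum_le_sum (fun i hi => hθm (hω2 i (by have := Finset.mem_range.1 hi; omega)).le)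
        have hO2 : ∑ i ∈ Finset.range N, θ (ω' i) ≤ ∑ i ∈ Finset.range N, θ (x i) :=
          Finset.sum_le_sum (fun i hi => hθm (hω1 i (Finset.mem_range.1 hi)).1.le)
        have hO3 : θ (-(τ 0) ^ 2) ≤ θ (ω' K) := hθm (hω1 K (by omega)).2.2.le
        have hsum1 : ∑ i ∈ Finset.range (K + 1), θ (x i)
            = ∑ i ∈ Finset.range K, θ (x (i + 1)) + θ (x 0) := Finset.sum_range_succ' _ _
        have hsum2 : ∑ i ∈ Finset.range (K + 1), θ (ω' i)
            = ∑ i ∈ Finset.range K, θ (ω' i) + θ (ω' K) := Finset.sum_range_succ _ _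
        have htel : ∑ i ∈ Finset.range N, (θ (x (i + 1)) - θ (x i)) = θ (x N) - θ (x 0) :=
          Finset.sum_range_sub (fun i => θ (x i)) N
        rw [Finset.sum_sub_distrib, hxN] at htel
        rw [← hK] at hsum1 hsum2
        constructor
        · linarith
        · linarith
    refine compare f e o hpoly _ _ hle hlo _ _ hefac hofac s y hs hy ?_ ?_
    · simp_rw [← hθd]
      rw [Fintype.sum_sum_type, Fintype.sum_sum_type]
      simp only [Sum.elim_inl, Sum.elim_inr]
      rw [← Finset.sum_range (fun i => θ (ε i)), ← Finset.sum_range (fun i => θ (ω' i)),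
        ← Finset.sum_range (fun j => θ (-(τ (2 * j + 1)) ^ 2)),
        ← Finset.sum_range (fun j => θ (-(τ (2 * j + 2)) ^ 2))]
      linarith [hmain.1]
    · simp_rw [← hθd]
      rw [Fintype.sum_sum_type, Fintype.sum_sum_type]
      simp only [Sum.elim_inl, Sum.elim_inr]
      rw [← Finset.sum_range (fun i => θ (ε i)), ← Finset.sum_range (fun i => θ (ω' i)),
        ← Finset.sum_range (fun j => θ (-(τ (2 * j + 1)) ^ 2)),
        ← Finset.sum_range (fun j => θ (-(τ (2 * j + 2)) ^ 2))]
      linarith [hmain.2]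

end Pool.Agent.LibH46.CondBKey
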